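import Mathlib

/-!
# Boxes of integral vectors and rational points of bounded height
-/

namespace Pool.Agent.ZPD

/-- integral vectors `(z, m)` with `|z_i| ≤ H` and `1 ≤ m ≤ H` -/
def box (ι : Type) (H : ℕ) : Set ((ι → ℤ) × ℤ) :=
  {ω | (∀ i, |ω.1 i| ≤ (H : ℤ)) ∧ 1 ≤ ω.2 ∧ ω.2 ≤ (H : ℤ)}

/-- the points of `ℚ^ι` of height at most `H`: the vectors `z / m` with `z` integral, `|z_i| ≤ H`
and `1 ≤ m ≤ H` -/
def ratPoints (ι : Type) (H : ℕ) : Set (ι → ℚ) :=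
  {q | ∃ ω ∈ box ι H, ∀ i, q i = (ω.1 i : ℚ) / (ω.2 : ℚ)}

end Pool.Agent.ZPD
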