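import Pool.Agent.Hhelper14.ZP2.Tate

/-!
# Roots of unity of `ℂ_p` and their residues
-/

namespace Pool.Agent.Hhelper14.ZP

variable {p : ℕ} [hp : Fact p.Prime]

theorem norm_intCast_lt_one_iff (m : ℤ) : ‖(m : PadicComplex p)‖ < 1 ↔ (p : ℤ) ∣ m := by
  rw [norm_intCast_eq, Padic.norm_intCast_lt_one_iff]

theorem norm_intCast_eq_one {m : ℤ} (h : ¬ (p : ℤ) ∣ m) : ‖(m : PadicComplex p)‖ = 1 := by
  refine le_antisymm (norm_intCast_le m) ?_
  rw [← not_lt, norm_intCast_lt_one_iff]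
  exact h

/-- a root of unity of order prime to `p` that is congruent to `1` is `1` -/
theorem eq_one_of_pow_eq_one {η : PadicComplex p} {M : ℕ} (hM : ¬ p ∣ M) (h : η ^ M = 1)
    (h1 : ‖η - 1‖ < 1) : η = 1 := by
  have hM0 : M ≠ 0 := fun h => hM (h ▸ dvd_zero p)
  have hη : ‖η‖ = 1 := by
    have := congrArg norm h
    rw [norm_pow, norm_one] at this
    exact (pow_eq_one_iff_of_nonneg (norm_nonneg _) hM0).mp this
  by_contra hne
  have hgeom : ∑ i ∈ Finset.range M, η ^ i = 0 := by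
    have h2 := geom_sum_mul η M
    rw [h, sub_self] at h2
    exact (mul_eq_zero.mp h2).resolve_right (sub_ne_zero.mpr hne)
  have h3 : ‖∑ i ∈ Finset.range M, (η ^ i - 1)‖ < 1 := by
    refine lt_of_le_of_lt (IsUltrametricDist.norm_sum_le_of_forall_le_of_nonneg (norm_nonneg _)
      (C := ‖η - 1‖) fun i _ => ?_) h1
    have h4 := mul_geom_sum η i
    rw [← h4, norm_mul]
    refine mul_le_of_le_one_right (norm_nonneg _) ?_
    refine IsUltrametricDist.norm_sum_le_of_forall_le_of_nonneg zero_le_one fun j _ => ?_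
    rw [norm_pow, hη, one_pow]
  rw [Finset.sum_sub_distrib, hgeom, zero_sub, norm_neg] at h3
  simp only [Finset.sum_const, Finset.card_range, nsmul_eq_mul, mul_one] at h3
  have h5 : ‖((M : ℤ) : PadicComplex p)‖ = 1 := norm_intCast_eq_one (by exact_mod_cast hM)
  rw [Int.cast_natCast] at h5
  linarith

/-- **The order of a root of unity is the order of its residue, up to powers of `p`.** -/
theorem order_eq {ζ : PadicComplex p} {D : ℕ} (hD : 0 < D) (hζ : IsPrimitiveRoot ζ D) {a b : ℤ}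
    (ha : ¬ (p : ℤ) ∣ a) (hb : ¬ (p : ℤ) ∣ b) (h : ‖ζ * b - a‖ < 1) :
    ∃ k : ℕ, D = orderOf ((a : ZMod p) / (b : ZMod p)) * p ^ k := by
  have hb0 : (b : ZMod p) ≠ 0 := by rwa [Ne, ZMod.intCast_zmod_eq_zero_iff_dvd]
  have ha0 : (a : ZMod p) ≠ 0 := by rwa [Ne, ZMod.intCast_zmod_eq_zero_iff_dvd]
  obtain ⟨e, he⟩ := ZMod.intCast_surjective ((a : ZMod p) / (b : ZMod p))
  have heb : (p : ℤ) ∣ a - e * b := by
    rw [← ZMod.intCast_zmod_eq_zero_iff_dvd]
    push_cast
    rw [he, div_mul_cancel₀ _ hb0, sub_self]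
  have hnb : ‖(b : PadicComplex p)‖ = 1 := norm_intCast_eq_one hb
  have hζe : ‖ζ - e‖ < 1 := by
    have e1 : (ζ - e) * b = (ζ * b - a) + ((a - e * b : ℤ) : PadicComplex p) := by
      push_cast; ring
    have h2 : ‖(ζ - e) * b‖ < 1 := by
      rw [e1]
      exact (IsUltrametricDist.norm_add_le_max _ _).trans_lt
        (max_lt h ((norm_intCast_lt_one_iff _).mpr heb))
    rwa [norm_mul, hnb, mul_one] at h2
  have hnζ : ‖ζ‖ = 1 := by
    have := congrArg norm hζ.pow_eq_one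
    rw [norm_pow, norm_one] at this
    exact (pow_eq_one_iff_of_nonneg (norm_nonneg _) hD.ne').mp this
  have hpow : ∀ n : ℕ, ‖ζ ^ n - (e ^ n : ℤ)‖ < 1 := by
    intro n
    induction n with
    | zero => simp
    | succ n ih =>
      have e2 : ζ ^ (n + 1) - ((e ^ (n + 1) : ℤ) : PadicComplex p) =
          (ζ ^ n - (e ^ n : ℤ)) * ζ + ((e ^ n : ℤ) : PadicComplex p) * (ζ - e) := by
        push_cast; ring
      rw [e2]
      refine (IsUltrametricDist.norm_add_le_max _ _).trans_lt (max_lt ?_ ?_)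
      · rw [norm_mul, hnζ, mul_one]; exact ih
      · rw [norm_mul]
        exact (mul_le_of_le_one_left (norm_nonneg _) (norm_intCast_le _)).trans_lt hζe
  -- the order of the residue divides `D`
  have hiff : ∀ n : ℕ, ((a : ZMod p) / (b : ZMod p)) ^ n = 1 ↔ ‖ζ ^ n - 1‖ < 1 := by
    intro n
    have h1 : ((a : ZMod p) / (b : ZMod p)) ^ n = 1 ↔ (p : ℤ) ∣ e ^ n - 1 := by
      rw [← ZMod.intCast_zmod_eq_zero_iff_dvd]
      push_cast
      rw [he, sub_eq_zero]
    rw [h1, ← norm_intCast_lt_one_iff]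
    have h2 := hpow n
    constructor
    · intro h3
      have e3 : ζ ^ n - 1 = (ζ ^ n - (e ^ n : ℤ)) + ((e ^ n - 1 : ℤ) : PadicComplex p) := by
        push_cast; ring
      rw [e3]
      exact (IsUltrametricDist.norm_add_le_max _ _).trans_lt (max_lt h2 h3)
    · intro h3
      have e3 : ((e ^ n - 1 : ℤ) : PadicComplex p) = -(ζ ^ n - (e ^ n : ℤ)) + (ζ ^ n - 1) := by
        push_cast; ring
      rw [e3]
      refine (IsUltrametricDist.norm_add_le_max _ _).trans_lt (max_lt ?_ h3)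
      rw [norm_neg]; exact h2
  set o := orderOf ((a : ZMod p) / (b : ZMod p)) with ho
  have hoD : o ∣ D := by
    rw [ho, orderOf_dvd_iff_pow_eq_one, hiff, hζ.pow_eq_one, sub_self, norm_zero]
    exact one_pos
  obtain ⟨M, hM⟩ := hoD
  have hM0 : M ≠ 0 := by
    rintro rfl
    rw [mul_zero] at hM
    exact hD.ne' hM
  have hprim : IsPrimitiveRoot (ζ ^ o) M := hζ.pow hD hM
  have hclose : ‖ζ ^ o - 1‖ < 1 := (hiff o).mp (pow_orderOf_eq_one _)
  obtain ⟨k, M', hM', hMk⟩ := Nat.exists_eq_pow_mul_and_not_dvd hM0 p hp.out.ne_one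
  have hprim' : IsPrimitiveRoot ((ζ ^ o) ^ (p ^ k)) M' := hprim.pow (Nat.pos_of_ne_zero hM0) hMk
  have hclose' : ‖(ζ ^ o) ^ (p ^ k) - 1‖ < 1 := by
    rw [← pow_mul, ← hiff, pow_mul, pow_orderOf_eq_one, one_pow]
  have h1 := eq_one_of_pow_eq_one hM' hprim'.pow_eq_one hclose'
  rw [h1] at hprim'
  have hM1 : M' = 1 := hprim'.unique IsPrimitiveRoot.one
  exact ⟨k, by rw [hM, hMk, hM1, mul_one]⟩

/-- arithmetic of three primes -/
theorem three_primes {p q r : ℕ} (hq : q.Prime) (hr : r.Prime) (hp : p.Prime) (hpq : p < q)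
    (hqr : q < r) {D a b c i j k : ℕ} (ha0 : 0 < a) (ha : a < p) (hb : b < q)
    (h1 : D = a * p ^ i) (h2 : D = b * q ^ j) (h3 : D = c * r ^ k) : c < q := by
  have key : ∀ s : ℕ, s.Prime → p < s → ¬ s ∣ D := by
    intro s hs hps hdvd
    rw [h1] at hdvd
    rcases (Nat.Prime.dvd_mul hs).mp hdvd with h | h
    · have := Nat.le_of_dvd ha0 h
      omega
    · have := (Nat.prime_dvd_prime_iff_eq hs hp).mp (hs.dvd_of_dvd_pow h)
      omega
  have hj : j = 0 := by
    by_contra hj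
    exact key q hq hpq (h2 ▸ Dvd.dvd.mul_left (dvd_pow_self q hj) b)
  have hk : k = 0 := by
    by_contra hk
    exact key r hr (hpq.trans hqr) (h3 ▸ Dvd.dvd.mul_left (dvd_pow_self r hk) c)
  rw [hj, pow_zero, mul_one] at h2
  rw [hk, pow_zero, mul_one] at h3
  omega

end Pool.Agent.Hhelper14.ZP
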