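import Pool.Agent.ZPD.Deg
import Pool.Agent.ZPD.Ord
import Pool.Agent.Hhelper14.ZP2.Point

/-!
# The criterion with several primes
-/

namespace Pool.Agent.Hhelper14.ZP

variable {n : ℕ}

/-- the size of a number close to `u / m` -/
theorem norm_of_close {p : ℕ} [hp : Fact p.Prime] {m u : ℤ} (hu : ¬ (p : ℤ) ∣ u)
    {x : PadicComplex p} (h : ‖m * x - u‖ < 1) : ‖(m : PadicComplex p)‖ * ‖x‖ = 1 := by
  have hu1 : ‖(u : PadicComplex p)‖ = 1 := norm_intCast_eq_one hu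
  have h1 : ‖(m * x - u : PadicComplex p)‖ < ‖(u : PadicComplex p)‖ := by rwa [hu1]
  have e : (m * x : PadicComplex p) = (m * x - u) + u := by ring
  rw [← norm_mul, e, IsUltrametricDist.norm_add_eq_max_of_norm_ne_norm h1.ne, max_eq_right h1.le,
    hu1]

/-- the size of a number close to `u / m`, when `p` divides `m` -/
theorem one_lt_of_close {p : ℕ} [hp : Fact p.Prime] {m u : ℤ} (hm : (p : ℤ) ∣ m)
    (hu : ¬ (p : ℤ) ∣ u) {x : PadicComplex p} (h : ‖m * x - u‖ < 1) : 1 < ‖x‖ := by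
  have h1 := norm_of_close hu h
  have h2 : ‖(m : PadicComplex p)‖ < 1 := (norm_intCast_lt_one_iff m).mpr hm
  by_contra hcon
  rw [not_lt] at hcon
  have h3 : ‖(m : PadicComplex p)‖ * ‖x‖ ≤ ‖(m : PadicComplex p)‖ * 1 := by gcongr
  linarith

/-- the local consequence of a Hecke relation -/
theorem order_of_rel {D : ℕ} (hD : 0 < D) {x y : ℂ}
    (h : ∀ (p : ℕ) [Fact p.Prime] (σ : ℂ →+* PadicComplex p), 1 < ‖σ x‖ → ‖σ x‖ = ‖σ y‖ →
      ∃ ζ : PadicComplex p, IsPrimitiveRoot ζ D ∧ ‖ζ * σ y - σ x‖ < ‖σ x‖)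
    {p : ℕ} [hp : Fact p.Prime] (σ : ℂ →+* PadicComplex p) {m u v : ℤ} (hm0 : m ≠ 0)
    (hm : (p : ℤ) ∣ m) (hu : ¬ (p : ℤ) ∣ u) (hv : ¬ (p : ℤ) ∣ v) (hx : ‖m * σ x - u‖ < 1)
    (hy : ‖m * σ y - v‖ < 1) :
    ∃ k : ℕ, D = orderOf ((u : ZMod p) / (v : ZMod p)) * p ^ k := by
  have hnx := norm_of_close hu hx
  have hny := norm_of_close hv hy
  have hmn : ‖(m : PadicComplex p)‖ ≠ 0 := by
    rw [norm_ne_zero_iff]
    exact_mod_cast hm0
  have hxy : ‖σ x‖ = ‖σ y‖ := mul_left_cancel₀ hmn (hnx.trans hny.symm)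
  obtain ⟨ζ, hζ, hζxy⟩ := h p σ (one_lt_of_close hm hu hx) hxy
  have hnζ : ‖ζ‖ = 1 := by
    have := congrArg norm hζ.pow_eq_one
    rw [norm_pow, norm_one] at this
    exact (pow_eq_one_iff_of_nonneg (norm_nonneg _) hD.ne').mp this
  refine order_eq hD hζ hu hv ?_
  have e : ζ * v - u = ζ * -(m * σ y - v) + (m * (ζ * σ y - σ x) + (m * σ x - u)) := by ring
  rw [e]
  refine (IsUltrametricDist.norm_add_le_max _ _).trans_lt (max_lt ?_
    ((IsUltrametricDist.norm_add_le_max _ _).trans_lt (max_lt ?_ hx)))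
  · rw [norm_mul, hnζ, one_mul, norm_neg]
    exact hy
  · rw [norm_mul]
    have h1 : ‖(m : PadicComplex p)‖ * ‖ζ * σ y - σ x‖ < ‖(m : PadicComplex p)‖ * ‖σ x‖ :=
      mul_lt_mul_of_pos_left hζxy (norm_pos_iff.mpr (norm_ne_zero_iff.mp hmn))
    rwa [hnx] at h1

theorem orderOf_ratio {p : ℕ} [hp : Fact p.Prime] {u v : ℤ} (hu : ¬ (p : ℤ) ∣ u)
    (hv : ¬ (p : ℤ) ∣ v) : 0 < orderOf ((u : ZMod p) / (v : ZMod p)) ∧
      orderOf ((u : ZMod p) / (v : ZMod p)) < p := by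
  have hu0 : (u : ZMod p) ≠ 0 := by rwa [Ne, ZMod.intCast_zmod_eq_zero_iff_dvd]
  have hv0 : (v : ZMod p) ≠ 0 := by rwa [Ne, ZMod.intCast_zmod_eq_zero_iff_dvd]
  have h1 := ZMod.orderOf_dvd_card_sub_one (div_ne_zero hu0 hv0)
  have h2 : 0 < p - 1 := Nat.sub_pos_of_lt hp.out.one_lt
  refine ⟨Nat.pos_of_dvd_of_pos h1 h2, ?_⟩
  have := Nat.le_of_dvd h2 h1
  omega

/-- **Criterion.** If `c` coordinates of every point of `W` are close to the `u_i / m` at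
sufficiently many primes dividing `m`, and the quotients `u_i / u_j` have large orders modulo
these primes, then `W` has no atypical intersection. -/
theorem noAtypical_of_primes {c : ℕ} (hcn : c ≤ n) {W : Set (Fin n → ℂ)}
    (hdim : ((n - c : ℕ) : WithBot ℕ∞) ≤ dim W) {u : Fin n → ℤ} {m : ℤ} (hm0 : m ≠ 0) {L : ℕ}
    (hL : 2 * 2 ^ n < L) {P : Fin L → ℕ} (hP : StrictMono P) [hprime : ∀ l, Fact (P l).Prime]
    (hm : ∀ l, (P l : ℤ) ∣ m) (hu : ∀ l i, ¬ (P l : ℤ) ∣ u i)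
    (hord : ∀ l l', l < l' → ∀ i j, i ≠ j →
      P l ≤ orderOf ((u i : ZMod (P l')) / (u j : ZMod (P l'))))
    (hσ : ∀ l, ∃ σ : ℂ →+* PadicComplex (P l), ∀ x ∈ W,
      ∃ S : Finset (Fin n), c ≤ S.card ∧ ∀ i ∈ S, ‖m * σ (x i) - u i‖ < 1) : NoAtypical W := by
  classical
  by_contra hcon
  obtain ⟨x, hx, r, hr, t, ht1, ht2⟩ := exists_point hcn hdim hcon
  choose σ hσ using hσ
  choose S hS hSx using fun l => hσ l x hx
  -- three primes with the same set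
  obtain ⟨l₁, l₂, l₃, h12, h23, hS12, hS23⟩ :
      ∃ l₁ l₂ l₃ : Fin L, l₁ < l₂ ∧ l₂ < l₃ ∧ S l₁ = S l₂ ∧ S l₂ = S l₃ := by
    have h1 : (Finset.univ : Finset (Finset (Fin n))).card * 2 <
        (Finset.univ : Finset (Fin L)).card := by
      simp only [Finset.card_univ, Fintype.card_finset, Fintype.card_fin]
      omega
    obtain ⟨S₀, -, hS₀⟩ := Finset.exists_lt_card_fiber_of_mul_lt_card_of_maps_to
      (f := S) (fun l _ => Finset.mem_univ (S l)) h1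
    let F := Finset.univ.filter fun l => S l = S₀
    let e := F.orderEmbOfFin rfl
    have he : ∀ k, S (e k) = S₀ := fun k =>
      (Finset.mem_filter.mp (F.orderEmbOfFin_mem rfl k)).2
    have h3 : 2 < F.card := hS₀
    refine ⟨e ⟨0, by omega⟩, e ⟨1, by omega⟩, e ⟨2, by omega⟩, ?_, ?_, ?_, ?_⟩
    · exact e.strictMono (by simp [Fin.lt_def])
    · exact e.strictMono (by simp [Fin.lt_def])
    · rw [he, he]
    · rw [he, he]
  -- two coordinates in the same block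
  set T := S l₁ with hT
  have hTx : ∀ l, l = l₁ ∨ l = l₂ ∨ l = l₃ → ∀ i ∈ T, ‖m * σ l (x i) - u i‖ < 1 := by
    rintro l (rfl | rfl | rfl) i hi
    · exact hSx _ i hi
    · exact hSx _ i (by rwa [← hS12])
    · exact hSx _ i (by rwa [← hS23, ← hS12])
  have hsome : ∀ i : T, ∃ b, t i = some b := by
    intro i
    rw [← Option.ne_none_iff_exists']
    intro hnone
    have h1 := norm_OO_le (K := PadicComplex (P l₁)) norm_intCast_le (σ l₁) (ht1 i hnone)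
    have h2 := one_lt_of_close (hm l₁) (hu l₁ i) (hTx l₁ (Or.inl rfl) i i.2)
    linarith
  choose f hf using hsome
  have hcard : Fintype.card (Fin r) < Fintype.card T := by
    rw [Fintype.card_fin, Fintype.card_coe, hT]
    exact hr.trans_le (hS l₁)
  obtain ⟨i, i', hne, hff⟩ := Fintype.exists_ne_map_eq_of_card_lt f hcard
  have hne' : (i : Fin n) ≠ i' := fun h => hne (Subtype.ext h)
  obtain ⟨D, hD, hDp⟩ := exists_deg (ht2 i i' (f i) (hf i) (by rw [hff]; exact hf i'))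
  have key : ∀ l, l = l₁ ∨ l = l₂ ∨ l = l₃ → ∃ k : ℕ,
      D = orderOf ((u i : ZMod (P l)) / (u i' : ZMod (P l))) * (P l) ^ k := fun l hl =>
    order_of_rel hD hDp (σ l) hm0 (hm l) (hu l i) (hu l i') (hTx l hl i i.2) (hTx l hl i' i'.2)
  obtain ⟨k₁, hk₁⟩ := key l₁ (Or.inl rfl)
  obtain ⟨k₂, hk₂⟩ := key l₂ (Or.inr (Or.inl rfl))
  obtain ⟨k₃, hk₃⟩ := key l₃ (Or.inr (Or.inr rfl))
  have o₁ := orderOf_ratio (hu l₁ i) (hu l₁ i')
  have o₂ := orderOf_ratio (hu l₂ i) (hu l₂ i')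
  have h4 := three_primes (hprime l₂).out (hprime l₃).out (hprime l₁).out (hP h12) (hP h23)
    o₁.1 o₁.2 o₂.2 hk₁ hk₂ hk₃
  have h5 := hord l₂ l₃ h23 i i' hne'
  omega

end Pool.Agent.Hhelper14.ZP
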