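import Pool.Agent.ZPD.TateIff
import Pool.Agent.Hhelper14.ZP2.NotHecke

/-!
# The degree of a cyclic isogeny is seen at every place
-/

namespace Pool.Agent.Hhelper14.ZP

open UpperHalfPlane ModularForm MatrixGroups Function PowerSeries

/-- a class with a given root of unity -/
theorem exists_class_root {D : ℕ} (hD : 0 < D) {N : ℕ} (hN : 0 < N) (hDN : D ^ 2 = N)
    {f : PowerSeries ℂ}
    (hf : ∀ τ : ℍ, Ev (Periodic.qParam 1 (τ : ℂ)) f (Periodic.qParam 1 (τ : ℂ) * jInv τ))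
    (b : ℕ) : ∃ B : DD N, ∀ τ : ℍ,
      Ev (qN N τ) (powComp (Complex.exp (2 * Real.pi * Complex.I / D) ^ b) (D ^ 2) f)
        (Complex.exp (2 * Real.pi * Complex.I / D) ^ b * qN N τ ^ (D ^ 2) *
          jQ hN (Quotient.mk'' B) τ) := by
  subst hDN
  let A : Matrix (Fin 2) (Fin 2) ℤ := !![(D : ℤ), (b : ℤ); 0, (D : ℤ)]
  have hA : A.det = ((D ^ 2 : ℕ) : ℤ) := by
    simp [A, Matrix.det_fin_two]
    ring
  refine ⟨mkDD A hA, fun τ => ?_⟩
  have hDC : (D : ℂ) ≠ 0 := by exact_mod_cast hD.ne'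
  have hact : (act hN (mkDD A hA) τ : ℂ) = (D * τ + b) / D := by
    rw [coe_act_mk]
    simp [A]
  have hq : Periodic.qParam 1 (act hN (mkDD A hA) τ : ℂ) =
      Complex.exp (2 * Real.pi * Complex.I / D) ^ b * qN (D ^ 2) τ ^ (D ^ 2) := by
    rw [hact]
    simp only [qN, Periodic.qParam]
    rw [← Complex.exp_nat_mul, ← Complex.exp_nat_mul, ← Complex.exp_add]
    congr 1
    push_cast
    field_simp
    ring
  rw [jQ_mk]
  have h1 := hf (act hN (mkDD A hA) τ)
  rw [hq] at h1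
  exact h1.powComp (by positivity)

variable {K : Type*} [NormedField K] [IsUltrametricDist K] [CompleteSpace K] [IsAlgClosed K]

/-- Tate parameters that differ by a root of unity come from a Hecke relation. -/
theorem dd_of_tate {fC : PowerSeries ℂ} (hfO : ∀ n, coeff n fC ∈ OO) (hf0 : coeff 0 fC = 1)
    (hf : ∀ τ : ℍ, Ev (Function.Periodic.qParam 1 (τ : ℂ)) fC
      (Function.Periodic.qParam 1 (τ : ℂ) * jInv τ))
    (hZ : ∀ m : ℤ, ‖(m : K)‖ ≤ 1) (σ : ℂ →+* K) {D N : ℕ} (hD : 0 < D) (hN : 0 < N)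
    (hDN : D ^ 2 = N) (τ₀ : ℍ) {q ζ : K} (hq : IsTate (PowerSeries.map σ fC) (σ (jInv τ₀)) q)
    (hζ : ζ ^ D = 1) {y : ℂ} (hy : IsTate (PowerSeries.map σ fC) (σ y) (ζ * q)) :
    ∃ A : DD N, y = jA hN A τ₀ := by
  classical
  choose a d c ha hd had hc hac using class_expansion hN hf
  have hprim : IsPrimitiveRoot (Complex.exp (2 * Real.pi * Complex.I / D)) D :=
    Complex.isPrimitiveRoot_exp D hD.ne'
  have hprim' := hprim.map_of_injective (f := σ) σ.injective
  have hne : NeZero D := ⟨hD.ne'⟩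
  obtain ⟨b, -, hb⟩ := hprim'.eq_pow_of_pow_eq_one hζ
  obtain ⟨B, hB⟩ := exists_class_root hD hN hDN hf b
  set c₀ : ℂ := Complex.exp (2 * Real.pi * Complex.I / D) ^ b with hc₀
  have hσc : σ c₀ = ζ := by rw [hc₀, map_pow, hb]
  have hc₀D : c₀ ^ D = 1 := by
    rw [hc₀, ← pow_mul, mul_comm b D, pow_mul, hprim.pow_eq_one, one_pow]
  let r₀ : QQ N := Quotient.mk'' B
  obtain ⟨s, hs⟩ := IsAlgClosed.exists_pow_nat_eq q hN
  have key := tate_iff hfO hf0 hf hZ σ hN (a := Function.update a r₀ D)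
    (d := Function.update d r₀ D) (c := Function.update c r₀ c₀) (fun r => by
      rcases eq_or_ne r r₀ with rfl | h
      · rw [Function.update_self]; exact hD
      · rw [Function.update_of_ne h]; exact ha r) (fun r => by
      rcases eq_or_ne r r₀ with rfl | h
      · rw [Function.update_self]; exact hD
      · rw [Function.update_of_ne h]; exact hd r) (fun r => by
      rcases eq_or_ne r r₀ with rfl | h
      · rw [Function.update_self, Function.update_self]; exact hc₀D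
      · rw [Function.update_of_ne h, Function.update_of_ne h]; exact hc r) (fun r τ => by
      rcases eq_or_ne r r₀ with rfl | h
      · rw [Function.update_self, Function.update_self]; exact hB τ
      · rw [Function.update_of_ne h, Function.update_of_ne h]; exact hac r τ) τ₀ hq hs y
  obtain ⟨r, hr⟩ := key.mpr ⟨r₀, by
    rw [Function.update_self, Function.update_self, hσc, hDN, hs]
    exact hy⟩
  induction r using Quotient.inductionOn' with
  | h A => exact ⟨A, by rw [hr, jQ_mk]⟩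

/-- the Tate parameter has the inverse norm -/
theorem norm_of_isTate {f : PowerSeries K} (hfn : ∀ n, ‖coeff n f‖ ≤ 1) (hf0 : coeff 0 f = 1)
    {x q : K} (h : IsTate f x q) : ‖q‖ * ‖x‖ = 1 ∧ ‖q * x - 1‖ < 1 := by
  refine ⟨by rw [← norm_mul, h.2, norm_val hfn hf0 h.1], ?_⟩
  rw [h.2]
  have h1 := norm_val_sub_le hfn h.1 (t := 0) (by simp)
  rw [val_zero hfn, hf0, sub_zero] at h1
  exact h1.trans_lt h.1

/-- **The degree of the minimal isogeny is seen at every place**: if `x` and `y` are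
`j`-invariants of isogenous curves, there is an integer `D > 0` such that for every prime `p` and
every embedding of `ℂ` into `ℂ_p` for which `x` and `y` have the same size, larger than `1`, the
quotient of their Tate parameters is a primitive `D`-th root of unity. -/
theorem exists_deg {x y : ℂ} (h : HeckeRel x y) : ∃ D : ℕ, 0 < D ∧
    ∀ (p : ℕ) [Fact p.Prime] (σ : ℂ →+* PadicComplex p), 1 < ‖σ x‖ → ‖σ x‖ = ‖σ y‖ →
      ∃ ζ : PadicComplex p, IsPrimitiveRoot ζ D ∧ ‖ζ * σ y - σ x‖ < ‖σ x‖ := by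
  classical
  obtain ⟨τ₀, g, hg, rfl, hy⟩ := h
  obtain ⟨f, hfO, hf0, hf⟩ := exists_Jf
  have hex : ∃ N : ℕ, ∃ (hN : 0 < N) (A : DD N), y = jA hN A τ₀ := by
    obtain ⟨N, hN, A, hA⟩ := exists_integral hg
    exact ⟨N, hN, A, by rw [hy, jA, hA]⟩
  obtain ⟨N₀, hN, A, hA, hmin⟩ : ∃ (N₀ : ℕ) (hN : 0 < N₀) (A : DD N₀), y = jA hN A τ₀ ∧
      ∀ N, N < N₀ → ¬ ∃ (hN : 0 < N) (A : DD N), y = jA hN A τ₀ := by
    obtain ⟨hN, A, hA⟩ := Nat.find_spec hex
    exact ⟨Nat.find hex, hN, A, hA, fun N hN => Nat.find_min hex hN⟩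
  -- the main point
  have main : ∀ (p : ℕ) [Fact p.Prime] (σ : ℂ →+* PadicComplex p), 1 < ‖σ (jInv τ₀)‖ →
      ‖σ (jInv τ₀)‖ = ‖σ y‖ → ∃ D : ℕ, D ^ 2 = N₀ ∧ ∃ ζ : PadicComplex p,
        IsPrimitiveRoot ζ D ∧ ‖ζ * σ y - σ (jInv τ₀)‖ < ‖σ (jInv τ₀)‖ := by
    intro p hp σ hx1 hxy
    set fσ := PowerSeries.map σ f with hfσ
    have hfn : ∀ n, ‖coeff n fσ‖ ≤ 1 := fun n => by
      rw [hfσ, PowerSeries.coeff_map]
      exact norm_OO_le norm_intCast_le σ (hfO n)
    have hf0' : coeff 0 fσ = 1 := by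
      rw [hfσ, PowerSeries.coeff_map, hf0, map_one]
    obtain ⟨q, hq1, hqx⟩ := exists_q hfn hf0' hx1
    have hq : IsTate fσ (σ (jInv τ₀)) q := ⟨hq1, hqx⟩
    have hq0 : q ≠ 0 := isTate_ne_zero hfn hf0' hq
    obtain ⟨s, hs⟩ := IsAlgClosed.exists_pow_nat_eq q hN
    choose a d c ha hd had hc hac using class_expansion hN hf
    have key := tate_iff hfO hf0 hf norm_intCast_le σ hN ha hd hc hac τ₀ hq hs y
    obtain ⟨r, hr⟩ := key.mp ⟨Quotient.mk'' A, by rw [jQ_mk]; exact hA⟩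
    have n1 := (norm_of_isTate hfn hf0' hq).1
    have n2 := (norm_of_isTate hfn hf0' hr).1
    have hcn : ‖σ (c r)‖ = 1 := by
      have h2 := congrArg (fun z => ‖σ z‖) (hc r)
      simp only [map_pow, norm_pow, map_one, norm_one] at h2
      exact (pow_eq_one_iff_of_nonneg (norm_nonneg _) (hd r).ne').mp h2
    have hs0 : s ≠ 0 := by
      rintro rfl
      rw [zero_pow hN.ne'] at hs
      exact hq0 hs.symm
    have hs1 : ‖s‖ < 1 := by
      by_contra hcon
      rw [not_lt] at hcon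
      have h1 : 1 ≤ ‖s‖ ^ N₀ := one_le_pow₀ hcon
      rw [← norm_pow, hs] at h1
      linarith
    have hxpos : 0 < ‖σ (jInv τ₀)‖ := by linarith
    rw [norm_mul, hcn, one_mul, ← hxy, norm_pow] at n2
    have n3 : ‖s‖ ^ (a r ^ 2) = ‖s‖ ^ N₀ := by
      apply mul_right_cancel₀ hxpos.ne'
      rw [n2, ← norm_pow, hs, n1]
    have n4 : a r ^ 2 = N₀ :=
      pow_right_injective₀ (norm_pos_iff.mpr hs0) hs1.ne n3
    have n5 : a r = d r := by
      have h1 : a r * a r = a r * d r := by rw [had r, ← n4, sq]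
      exact Nat.eq_of_mul_eq_mul_left (ha r) h1
    rw [n4, hs] at hr
    have hζD : σ (c r) ^ a r = 1 := by
      rw [n5, ← map_pow, hc r, map_one]
    refine ⟨a r, n4, σ (c r), ?_, ?_⟩
    · -- primitivity
      have hdvd := orderOf_dvd_of_pow_eq_one hζD
      have hpos : 0 < orderOf (σ (c r)) := Nat.pos_of_dvd_of_pos hdvd (ha r)
      have hle := Nat.le_of_dvd (ha r) hdvd
      rcases hle.lt_or_eq with hlt | heq
      · exfalso
        have hN' : 0 < orderOf (σ (c r)) ^ 2 := by positivity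
        obtain ⟨A', hA'⟩ := dd_of_tate hfO hf0 hf norm_intCast_le σ hpos hN' rfl τ₀ hq
          (pow_orderOf_eq_one _) hr
        refine hmin _ ?_ ⟨hN', A', hA'⟩
        rw [← n4]
        exact Nat.pow_lt_pow_left hlt two_ne_zero
      · rw [← heq]
        exact IsPrimitiveRoot.orderOf _
    · -- the leading term
      have m1 := (norm_of_isTate hfn hf0' hq).2
      have m2 := (norm_of_isTate hfn hf0' hr).2
      have e : q * (σ (c r) * σ y - σ (jInv τ₀)) =
          (σ (c r) * q * σ y - 1) + -(q * σ (jInv τ₀) - 1) := by ring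
      have m3 : ‖q‖ * ‖σ (c r) * σ y - σ (jInv τ₀)‖ < 1 := by
        rw [← norm_mul, e]
        refine (IsUltrametricDist.norm_add_le_max _ _).trans_lt (max_lt m2 ?_)
        rw [norm_neg]
        exact m1
      rw [← n1] at m3
      exact lt_of_mul_lt_mul_left m3 (norm_nonneg _)
  by_cases hsq : ∃ D : ℕ, D ^ 2 = N₀
  · obtain ⟨D, hD⟩ := hsq
    refine ⟨D, ?_, fun p hp σ h1 h2 => ?_⟩
    · rcases Nat.eq_zero_or_pos D with h | h
      · rw [h] at hD
        simp only [ne_eq, OfNat.ofNat_ne_zero, not_false_eq_true, zero_pow] at hD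
        exact absurd hN (by rw [← hD]; simp)
      · exact h
    · obtain ⟨D', hD', ζ, hζ, hζ'⟩ := main p σ h1 h2
      have : D' = D := Nat.pow_left_injective two_ne_zero (hD'.trans hD.symm)
      subst this
      exact ⟨ζ, hζ, hζ'⟩
  · refine ⟨1, one_pos, fun p hp σ h1 h2 => ?_⟩
    obtain ⟨D', hD', -⟩ := main p σ h1 h2
    exact absurd ⟨D', hD'⟩ hsq

end Pool.Agent.Hhelper14.ZP
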