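import Pool.Agent.ZPD.Box

/-!
# Density of residue conditions (Chinese remainder theorem)

PROOF. Let `Q = ∏ p ∈ S, p`. Whether `ω = (z, m)` satisfies the condition depends on `ω` modulo `Q`
only. For each residue vector `(r, s) ∈ (ι → ZMod Q) × ZMod Q` the number of `ω` in the box with
this residue is `∏_i #{x ∈ [-H, H] : x ≡ r_i} * #{x ∈ [1, H] : x ≡ s}`, and each factor divided by
`2 H + 1`, resp. `H`, tends to `1 / Q` (`Int.Ico_filter_modEq_card` or `Int.Ioc_filter_modEq_card`;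
cf. `card_residue` in Pool/Agent/Hhelper14/ZP/Class.lean). So the proportion of the bad `ω` tends to
`#Bad / Q ^ (|ι| + 1)`, where `Bad` is the set of the residue vectors that satisfy the condition; by
`ZMod.prodEquivPi` (applied coordinate by coordinate) `Bad` is a product over `p ∈ S` of the sets
`{(r, s) mod p : ¬ (s = 0 ∧ r ∈ R p)}`, of cardinality `p ^ (|ι| + 1) - #(R p) ≤
p ^ (|ι| + 1) * (1 - 1 / (2 p))`.
-/

namespace Pool.Agent.ZPD

open Filter

/-- number of integers in an interval in a residue class -/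
lemma card_class_le {Q : ℕ} (hQ : 0 < Q) (v lo hi : ℤ) (h : lo ≤ hi) :
    (((Finset.Ico lo hi).filter (fun x => x ≡ v [ZMOD Q])).card : ℝ) ≤ ((hi : ℝ) - lo) / Q + 1 := by
  have hQ' : (0 : ℤ) < Q := by exact_mod_cast hQ
  have hQQ : (0 : ℚ) < (Q : ℚ) := by exact_mod_cast hQ
  have h1 := Int.Ico_filter_modEq_card lo hi hQ' v
  have h2 : ((((Finset.Ico lo hi).filter (fun x => x ≡ v [ZMOD Q])).card : ℤ) : ℚ) ≤
      ((hi : ℚ) - lo) / Q + 1 := by
    rw [h1]
    push_cast
    apply max_le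
    · have h3 := (Int.ceil_lt_add_one (((hi : ℚ) - v) / (Q : ℚ))).le
      have h4 := Int.le_ceil (((lo : ℚ) - v) / (Q : ℚ))
      have h5 : ((hi : ℚ) - lo) / Q = ((hi : ℚ) - v) / Q - ((lo : ℚ) - v) / Q := by ring
      rw [h5]
      linarith
    · have : (0 : ℚ) ≤ (hi : ℚ) - lo := by
        have : (lo : ℚ) ≤ hi := by exact_mod_cast h
        linarith
      positivity
  have h3 := (Rat.cast_le (K := ℝ)).mpr h2
  push_cast at h3
  exact h3

/-- the box as a finset -/
noncomputable def boxF (ι : Type) [Fintype ι] [DecidableEq ι] (H : ℕ) : Finset ((ι → ℤ) × ℤ) :=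
  (Fintype.piFinset fun _ : ι => Finset.Icc (-(H : ℤ)) H) ×ˢ Finset.Icc 1 (H : ℤ)

lemma mem_boxF {ι : Type} [Fintype ι] [DecidableEq ι] {H : ℕ} {ω : (ι → ℤ) × ℤ} :
    ω ∈ boxF ι H ↔ ω ∈ box ι H := by
  unfold boxF box
  simp only [Finset.mem_product, Fintype.mem_piFinset, Finset.mem_Icc, Set.mem_ofPred_eq, abs_le]

/-- the number of elements of the box in a residue class -/
lemma card_fiber_le {ι : Type} [Fintype ι] [DecidableEq ι] {Q : ℕ} (hQ : 0 < Q) (H : ℕ)
    (A : Finset ((ι → ℤ) × ℤ)) (hA : A ⊆ boxF ι H)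
    (hc : ∀ ω ∈ A, ∀ ω' ∈ A, (∀ i, ω.1 i ≡ ω'.1 i [ZMOD Q]) ∧ ω.2 ≡ ω'.2 [ZMOD Q]) :
    (A.card : ℝ) ≤ ((2 * H + 1 + Q) / Q) ^ Fintype.card ι * ((H + Q) / Q) := by
  have hQR : (0 : ℝ) < Q := by exact_mod_cast hQ
  rcases A.eq_empty_or_nonempty with rfl | ⟨ω₀, h0⟩
  · simp only [Finset.card_empty, Nat.cast_zero]
    positivity
  · have hsub : A ⊆ (Fintype.piFinset fun i : ι =>
        (Finset.Ico (-(H : ℤ)) (H + 1)).filter (fun x => x ≡ ω₀.1 i [ZMOD Q])) ×ˢ
        (Finset.Ico 1 ((H : ℤ) + 1)).filter (fun x => x ≡ ω₀.2 [ZMOD Q]) := by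
      intro ω hω
      have h1 := mem_boxF.1 (hA hω)
      obtain ⟨h2, h3⟩ := hc ω hω ω₀ h0
      simp only [Finset.mem_product, Fintype.mem_piFinset, Finset.mem_filter, Finset.mem_Ico]
      refine ⟨fun i => ⟨?_, h2 i⟩, ?_, h3⟩
      · have := abs_le.1 (h1.1 i)
        omega
      · have := h1.2
        omega
    have h1 := Finset.card_le_card hsub
    rw [Finset.card_product, Fintype.card_piFinset] at h1
    have h2 : (A.card : ℝ) ≤ (∏ i : ι, (((Finset.Ico (-(H : ℤ)) (H + 1)).filter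
        (fun x => x ≡ ω₀.1 i [ZMOD Q])).card : ℝ)) *
        (((Finset.Ico 1 ((H : ℤ) + 1)).filter (fun x => x ≡ ω₀.2 [ZMOD Q])).card : ℝ) := by
      exact_mod_cast h1
    refine h2.trans (mul_le_mul ?_ ?_ (by positivity) (by positivity))
    · rw [← Finset.card_univ, ← Finset.prod_const]
      refine Finset.prod_le_prod (fun _ _ => by positivity) fun i _ => ?_
      refine (card_class_le hQ (ω₀.1 i) _ _ (by omega)).trans (le_of_eq ?_)
      push_cast
      field_simp
      ring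
    · refine (card_class_le hQ ω₀.2 _ _ (by omega)).trans (le_of_eq ?_)
      push_cast
      field_simp
      ring

/-- one prime -/
lemma card_bad_le {ι : Type} [Fintype ι] [DecidableEq ι] {p : ℕ} [NeZero p]
    (R : Set (ι → ZMod p)) [DecidablePred fun x : (ι → ZMod p) × ZMod p => ¬ (x.2 = 0 ∧ x.1 ∈ R)]
    (hR : (p : ℝ) ^ Fintype.card ι ≤ 2 * (R.ncard : ℝ)) :
    ((Finset.univ.filter fun x : (ι → ZMod p) × ZMod p => ¬ (x.2 = 0 ∧ x.1 ∈ R)).card : ℝ) ≤
      (p : ℝ) ^ (Fintype.card ι + 1) * (1 - 1 / (2 * (p : ℝ))) := by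
  classical
  have hp : (0 : ℝ) < p := by
    have := NeZero.pos p
    exact_mod_cast this
  have h1 := Finset.card_filter_add_card_filter_not (s := (Finset.univ : Finset ((ι → ZMod p) × ZMod p)))
    (fun x : (ι → ZMod p) × ZMod p => x.2 = 0 ∧ x.1 ∈ R)
  have h2 : (Finset.univ.filter fun x : (ι → ZMod p) × ZMod p => x.2 = 0 ∧ x.1 ∈ R).card =
      R.ncard := by
    have e1 : (Finset.univ.filter fun x : (ι → ZMod p) × ZMod p => x.2 = 0 ∧ x.1 ∈ R) =
        (Finset.univ.filter fun x : ι → ZMod p => x ∈ R) ×ˢ {(0 : ZMod p)} := by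
      ext x
      simp only [Finset.mem_filter, Finset.mem_univ, true_and, Finset.mem_product,
        Finset.mem_singleton]
      exact and_comm
    rw [e1, Finset.card_product, Finset.card_singleton, mul_one]
    have e2 : R = ↑(Finset.univ.filter fun x : ι → ZMod p => x ∈ R) := by
      ext x
      simp
    conv_rhs => rw [e2]
    rw [Set.ncard_coe_finset]
  have h3 : (Finset.univ : Finset ((ι → ZMod p) × ZMod p)).card = p ^ (Fintype.card ι + 1) := by
    rw [Finset.card_univ, Fintype.card_prod, Fintype.card_pi]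
    simp only [ZMod.card, Finset.prod_const, Finset.card_univ]
    rw [pow_succ]
  rw [h2, h3] at h1
  have h4 : (R.ncard : ℝ) + ((Finset.univ.filter fun x : (ι → ZMod p) × ZMod p =>
      ¬ (x.2 = 0 ∧ x.1 ∈ R)).card : ℝ) = (p : ℝ) ^ (Fintype.card ι + 1) := by
    exact_mod_cast h1
  have h5 : (p : ℝ) ^ (Fintype.card ι + 1) * (1 - 1 / (2 * (p : ℝ))) =
      (p : ℝ) ^ (Fintype.card ι + 1) - (p : ℝ) ^ Fintype.card ι / 2 := by
    rw [pow_succ]
    field_simp
  rw [h5]
  linarith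

theorem crt_density {ι : Type} [Fintype ι] (S : Finset ℕ) (hS : ∀ p ∈ S, p.Prime)
    (R : (p : ℕ) → Set (ι → ZMod p))
    (hR : ∀ p ∈ S, (p : ℝ) ^ Fintype.card ι ≤ 2 * ((R p).ncard : ℝ)) {ε : ℝ} (hε : 0 < ε) :
    ∀ᶠ H : ℕ in atTop,
      (Set.ncard {ω ∈ box ι H | ∀ p ∈ S,
        ¬ ((p : ℤ) ∣ ω.2 ∧ (fun i => (ω.1 i : ZMod p)) ∈ R p)} : ℝ) ≤
      (∏ p ∈ S, (1 - 1 / (2 * (p : ℝ))) + ε) * ((2 * (H : ℝ) + 1) ^ Fintype.card ι * H) := by
  classical
  set Q : ℕ := ∏ p ∈ S, p with hQdef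
  have hQ : 0 < Q := Finset.prod_pos fun p hp => (hS p hp).pos
  have hQR : (0 : ℝ) < Q := by exact_mod_cast hQ
  have hfac : ∀ p ∈ S, (0 : ℝ) ≤ 1 - 1 / (2 * (p : ℝ)) ∧ 1 - 1 / (2 * (p : ℝ)) ≤ 1 := by
    intro p hp
    have h2 : (2 : ℝ) ≤ p := by exact_mod_cast (hS p hp).two_le
    have h3 : (0 : ℝ) < 1 / (2 * (p : ℝ)) := by positivity
    have h4 : 1 / (2 * (p : ℝ)) ≤ 1 := by
      rw [div_le_one (by linarith)]
      linarith
    constructor <;> linarith
  set P : ℝ := ∏ p ∈ S, (1 - 1 / (2 * (p : ℝ))) with hPdef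
  have hP0 : 0 ≤ P := Finset.prod_nonneg fun p hp => (hfac p hp).1
  have hP1 : P ≤ 1 := Finset.prod_le_one (fun p hp => (hfac p hp).1) fun p hp => (hfac p hp).2
  have hne : ∀ p : S, NeZero (p : ℕ) := fun p => ⟨(hS p p.2).ne_zero⟩
  -- the count
  have main : ∀ H : ℕ, (Set.ncard {ω ∈ box ι H | ∀ p ∈ S,
      ¬ ((p : ℤ) ∣ ω.2 ∧ (fun i => (ω.1 i : ZMod p)) ∈ R p)} : ℝ) ≤
      P * ((2 * (H : ℝ) + 1 + Q) ^ Fintype.card ι * (H + Q)) := by
    intro H
    set A : Finset ((ι → ℤ) × ℤ) := (boxF ι H).filter fun ω => ∀ p ∈ S,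
      ¬ ((p : ℤ) ∣ ω.2 ∧ (fun i => (ω.1 i : ZMod p)) ∈ R p) with hA
    have e1 : {ω ∈ box ι H | ∀ p ∈ S,
        ¬ ((p : ℤ) ∣ ω.2 ∧ (fun i => (ω.1 i : ZMod p)) ∈ R p)} = ↑A := by
      ext ω
      simp only [hA, Set.mem_ofPred_eq, Finset.coe_filter, mem_boxF]
    rw [e1, Set.ncard_coe_finset]
    let Φ : (ι → ℤ) × ℤ → ∀ p : S, (ι → ZMod p) × ZMod p := fun ω p =>
      (fun i => (ω.1 i : ZMod p), (ω.2 : ZMod p))
    let B : ∀ p : S, Finset ((ι → ZMod p) × ZMod p) := fun p =>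
      Finset.univ.filter fun x => ¬ (x.2 = 0 ∧ x.1 ∈ R p)
    have hmap : ∀ ω ∈ A, Φ ω ∈ Fintype.piFinset B := by
      intro ω hω
      rw [Fintype.mem_piFinset]
      intro p
      have h1 := (Finset.mem_filter.1 hω).2 p p.2
      simp only [B, Φ, Finset.mem_filter, Finset.mem_univ, true_and]
      rw [ZMod.intCast_zmod_eq_zero_iff_dvd]
      exact h1
    have hcard := Finset.card_eq_sum_card_fiberwise (f := Φ) (s := A) (t := Fintype.piFinset B)
      (fun ω hω => hmap ω hω)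
    have hfib : ∀ β ∈ Fintype.piFinset B, ((A.filter fun ω => Φ ω = β).card : ℝ) ≤
        ((2 * H + 1 + Q) / Q) ^ Fintype.card ι * ((H + Q) / Q) := by
      intro β _
      apply card_fiber_le hQ H
      · exact (Finset.filter_subset _ _).trans (Finset.filter_subset _ _)
      · intro ω hω ω' hω'
        have h1 : Φ ω = Φ ω' := (Finset.mem_filter.1 hω).2.trans (Finset.mem_filter.1 hω').2.symm
        have key : ∀ x y : ℤ, (∀ p : S, (x : ZMod p) = (y : ZMod p)) → x ≡ y [ZMOD Q] := by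
          intro x y hxy
          have h2 : ∀ p ∈ S, (p : ℤ) ∣ y - x := by
            intro p hp
            have := hxy ⟨p, hp⟩
            exact (ZMod.intCast_eq_intCast_iff_dvd_sub _ _ _).1 this
          apply (Int.modEq_iff_dvd).2
          rw [Int.natCast_dvd, hQdef]
          apply Finset.prod_primes_dvd
          · intro p hp
            exact (hS p hp).prime
          · intro p hp
            exact Int.natCast_dvd.1 (h2 p hp)
        refine ⟨fun i => key _ _ fun p => ?_, key _ _ fun p => ?_⟩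
        · have := congrFun h1 p
          exact congrFun (congrArg Prod.fst this) i
        · have := congrFun h1 p
          exact congrArg Prod.snd this
    have hsum : (A.card : ℝ) ≤ (Fintype.piFinset B).card *
        (((2 * H + 1 + Q) / Q) ^ Fintype.card ι * ((H + Q) / Q)) := by
      rw [hcard]
      push_cast
      calc ∑ β ∈ Fintype.piFinset B, ((A.filter fun ω => Φ ω = β).card : ℝ)
          ≤ ∑ _β ∈ Fintype.piFinset B,
            (((2 * H + 1 + Q) / Q) ^ Fintype.card ι * ((H + Q) / Q) : ℝ) :=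
            Finset.sum_le_sum hfib
        _ = _ := by rw [Finset.sum_const, nsmul_eq_mul]
    have hB : ((Fintype.piFinset B).card : ℝ) ≤ (Q : ℝ) ^ (Fintype.card ι + 1) * P := by
      rw [Fintype.card_piFinset]
      push_cast
      calc ∏ p : S, ((B p).card : ℝ)
          ≤ ∏ p : S, (((p : ℕ) : ℝ) ^ (Fintype.card ι + 1) * (1 - 1 / (2 * ((p : ℕ) : ℝ)))) := by
            refine Finset.prod_le_prod (fun _ _ => by positivity) fun p _ => ?_
            exact card_bad_le (R p) (hR p p.2)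
        _ = ∏ p ∈ S, ((p : ℝ) ^ (Fintype.card ι + 1) * (1 - 1 / (2 * (p : ℝ)))) :=
            Finset.prod_coe_sort S fun p => ((p : ℝ) ^ (Fintype.card ι + 1) * (1 - 1 / (2 * (p : ℝ))))
        _ = _ := by
            rw [Finset.prod_mul_distrib, Finset.prod_pow, hQdef]
            push_cast
            rfl
    calc (A.card : ℝ) ≤ (Fintype.piFinset B).card *
          (((2 * H + 1 + Q) / Q) ^ Fintype.card ι * ((H + Q) / Q)) := hsum
      _ ≤ ((Q : ℝ) ^ (Fintype.card ι + 1) * P) *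
          (((2 * H + 1 + Q) / Q) ^ Fintype.card ι * ((H + Q) / Q)) :=
          mul_le_mul_of_nonneg_right hB (by positivity)
      _ = _ := by
          rw [div_pow, pow_succ]
          field_simp
  -- the limit
  have hlim : ∀ᶠ H : ℕ in atTop, (2 * (H : ℝ) + 1 + Q) ^ Fintype.card ι * (H + Q) ≤
      (1 + ε) * ((2 * (H : ℝ) + 1) ^ Fintype.card ι * H) := by
    have t1 : Tendsto (fun H : ℕ => 1 + (Q : ℝ) / (2 * (H : ℝ) + 1)) atTop (nhds (1 + 0)) := by
      apply Tendsto.const_add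
      apply Tendsto.const_div_atTop
      apply tendsto_atTop_add_const_right
      exact Tendsto.const_mul_atTop (by norm_num) tendsto_natCast_atTop_atTop
    have t2 : Tendsto (fun H : ℕ => 1 + (Q : ℝ) / (H : ℝ)) atTop (nhds (1 + 0)) := by
      apply Tendsto.const_add
      exact Tendsto.const_div_atTop tendsto_natCast_atTop_atTop _
    have t3 := (t1.pow (Fintype.card ι)).mul t2
    rw [add_zero, one_pow, one_mul] at t3
    have t4 := t3.eventually (gt_mem_nhds (show (1 : ℝ) < 1 + ε by linarith))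
    filter_upwards [t4, eventually_ge_atTop 1] with H h1 h2
    have hH : (0 : ℝ) < H := by exact_mod_cast h2
    have h3 : (2 * (H : ℝ) + 1 + Q) ^ Fintype.card ι * (H + Q) =
        ((1 + (Q : ℝ) / (2 * (H : ℝ) + 1)) ^ Fintype.card ι * (1 + (Q : ℝ) / (H : ℝ))) *
          ((2 * (H : ℝ) + 1) ^ Fintype.card ι * H) := by
      have e2 : 2 * (H : ℝ) + 1 + Q = (1 + (Q : ℝ) / (2 * (H : ℝ) + 1)) * (2 * (H : ℝ) + 1) := by
        field_simp
      have e3 : (H : ℝ) + Q = (1 + (Q : ℝ) / (H : ℝ)) * H := by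
        field_simp
      rw [e3, e2, mul_pow]
      ring
    rw [h3]
    exact mul_le_mul_of_nonneg_right h1.le (by positivity)
  filter_upwards [hlim] with H hH
  calc _ ≤ P * ((2 * (H : ℝ) + 1 + Q) ^ Fintype.card ι * (H + Q)) := main H
    _ ≤ P * ((1 + ε) * ((2 * (H : ℝ) + 1) ^ Fintype.card ι * H)) :=
        mul_le_mul_of_nonneg_left hH hP0
    _ = (P + P * ε) * ((2 * (H : ℝ) + 1) ^ Fintype.card ι * H) := by ring
    _ ≤ (P + ε) * ((2 * (H : ℝ) + 1) ^ Fintype.card ι * H) := by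
        apply mul_le_mul_of_nonneg_right _ (by positivity)
        nlinarith

end Pool.Agent.ZPD
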