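import Pool.Agent.Hhelper14.ZP.Defs
import Pool.Agent.ZPD.Box

/-!
# The translates of a subvariety of `Y(1)ⁿ` by `PGL₂(ℚ)ⁿ`
-/

namespace Pool.Agent.ZPD

open MvPolynomial Pool.Agent.Hhelper14.ZP

/-- Let `q ∈ ℚ³ⁿ`, with the coordinates `α_i = q (i, 0)`, `β_i = q (i, 1)`, `γ_i = q (i, 2)`. The
set of the points `(β_i + α_i / (y_i - γ_i))_i` of `ℂⁿ`, where `y` is a point of `V` with
`y_i ≠ γ_i` for all `i`. -/
def pglImage {n : ℕ} (q : Fin n × Fin 3 → ℚ) (V : Set (Fin n → ℂ)) : Set (Fin n → ℂ) :=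
  {x | ∃ y ∈ V, ∀ i, y i ≠ (q (i, 2) : ℂ) ∧
    x i = (q (i, 1) : ℂ) + (q (i, 0) : ℂ) / (y i - (q (i, 2) : ℂ))}

/-- The translate of `V` by the element `(y_i ↦ β_i + α_i / (y_i - γ_i))_i` of `PGL₂(ℚ)ⁿ`
(if all `α_i` are nonzero), acting on `(ℙ¹)ⁿ`: the Zariski closure in `ℂⁿ` of `pglImage q V`. -/
def pglTranslate {n : ℕ} (q : Fin n × Fin 3 → ℚ) (V : Set (Fin n → ℂ)) : Set (Fin n → ℂ) :=
  zeroLocus ℂ (vanishingIdeal ℂ (pglImage q V))

/-- All `α_i` are nonzero, the translate is irreducible of the same dimension as `V`, and it has no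
atypical intersection with a special subvariety. -/
def GoodTranslate {n : ℕ} (V : Set (Fin n → ℂ)) (q : Fin n × Fin 3 → ℚ) : Prop :=
  (∀ i, q (i, 0) ≠ 0) ∧ IsIrredClosed (pglTranslate q V) ∧ dim (pglTranslate q V) = dim V ∧
    NoAtypical (pglTranslate q V)

end Pool.Agent.ZPD
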