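import Pool.Agent.Hhelper14.ZP2.Lip

/-!
# Zeros of integral polynomials close to infinity
-/

namespace Pool.Agent.Hhelper14.ZP

open MvPolynomial

variable {K : Type*} [NormedField K] [IsUltrametricDist K]

/-- the form of top degree -/
noncomputable def topForm {ι R : Type*} [CommSemiring R] (F : MvPolynomial ι R) :
    MvPolynomial ι R := homogeneousComponent F.totalDegree F

theorem topForm_ne_zero {ι R : Type*} [CommSemiring R] {F : MvPolynomial ι R} (hF : F ≠ 0) :
    topForm F ≠ 0 := by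
  obtain ⟨d, hd, hd'⟩ := Finset.exists_mem_eq_sup F.support (support_nonempty.mpr hF)
    (fun s => s.sum fun _ e => e)
  intro h
  have h1 := congrArg (coeff d) h
  rw [topForm, coeff_homogeneousComponent, coeff_zero] at h1
  have h2 : d.degree = F.totalDegree := hd'.symm
  rw [if_pos h2] at h1
  exact (mem_support_iff.mp hd) h1

/-- the top form at `C` if `F` vanishes at `w / m`, `w` close to `C` -/
theorem norm_topForm_lt {ι : Type*} [Fintype ι] {F : MvPolynomial ι K}
    (hF : ∀ μ, ‖F.coeff μ‖ ≤ 1) {m : K} (hm0 : m ≠ 0) (hm : ‖m‖ < 1) {w c : ι → K}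
    (hc : ∀ i, ‖c i‖ ≤ 1) (hwc : ∀ i, ‖w i - c i‖ < 1) (h0 : eval (fun i => w i / m) F = 0) :
    ‖eval c (topForm F)‖ < 1 := by
  classical
  have hw : ∀ i, ‖w i‖ ≤ 1 := fun i => by
    have e : w i = (w i - c i) + c i := by ring
    rw [e]
    exact (IsUltrametricDist.norm_add_le_max _ _).trans (max_le (hwc i).le (hc i))
  have hdeg : ∀ μ ∈ F.support, μ.degree ≤ F.totalDegree := fun μ hμ => le_totalDegree hμ
  have h1 : ∑ μ ∈ F.support, F.coeff μ * (m ^ (F.totalDegree - μ.degree) * ∏ i, w i ^ μ i) = 0 := by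
    have h2 := congrArg (fun z => m ^ F.totalDegree * z) h0
    simp only [mul_zero] at h2
    rw [eval_eq', Finset.mul_sum] at h2
    rw [← h2]
    refine Finset.sum_congr rfl fun μ hμ => ?_
    have h3 : ∏ i, (w i / m) ^ μ i = (∏ i, w i ^ μ i) / m ^ μ.degree := by
      rw [Finsupp.degree_eq_sum, ← Finset.prod_pow_eq_pow_sum, ← Finset.prod_div_distrib]
      refine Finset.prod_congr rfl fun i _ => ?_
      rw [div_pow]
    rw [h3]
    have h4 : m ^ F.totalDegree = m ^ (F.totalDegree - μ.degree) * m ^ μ.degree := by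
      rw [← pow_add, Nat.sub_add_cancel (hdeg μ hμ)]
    rw [h4]
    have h5 : m ^ μ.degree ≠ 0 := pow_ne_zero _ hm0
    field_simp
  have h2 : eval w (topForm F) = -∑ μ ∈ F.support with ¬ μ.degree = F.totalDegree,
      F.coeff μ * (m ^ (F.totalDegree - μ.degree) * ∏ i, w i ^ μ i) := by
    rw [eq_neg_iff_add_eq_zero, ← h1, ← Finset.sum_filter_add_sum_filter_not F.support
      (fun μ => μ.degree = F.totalDegree), topForm, homogeneousComponent_apply, map_sum]
    congr 1
    refine Finset.sum_congr rfl fun μ hμ => ?_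
    rw [eval_monomial, (Finset.mem_filter.mp hμ).2, Nat.sub_self, pow_zero, one_mul,
      Finsupp.prod_fintype _ _ (fun i => pow_zero _)]
  have h3 : ‖eval w (topForm F)‖ < 1 := by
    rw [h2, norm_neg]
    refine norm_sum_lt _ _ fun μ hμ => ?_
    obtain ⟨hμ1, hμ2⟩ := Finset.mem_filter.mp hμ
    have h4 := hdeg μ hμ1
    rw [norm_mul, norm_mul, norm_pow]
    have h5 : ‖m‖ ^ (F.totalDegree - μ.degree) < 1 :=
      pow_lt_one₀ (norm_nonneg _) hm (by omega)
    have h6 : ‖∏ i, w i ^ μ i‖ ≤ 1 := norm_prod_le_one _ _ fun i _ => by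
      rw [norm_pow]; exact pow_le_one₀ (norm_nonneg _) (hw i)
    refine (mul_le_of_le_one_left (by positivity) (hF μ)).trans_lt ?_
    exact (mul_le_of_le_one_right (by positivity) h6).trans_lt h5
  have hG : ∀ μ, ‖(topForm F).coeff μ‖ ≤ 1 := fun μ => by
    rw [topForm, coeff_homogeneousComponent]
    split_ifs
    · exact hF μ
    · simp
  have h4 := norm_eval_sub_eval_lt hG hw hc hwc
  have e : eval c (topForm F) = -(eval w (topForm F) - eval c (topForm F)) + eval w (topForm F) := by
    ring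
  rw [e]
  refine (IsUltrametricDist.norm_add_le_max _ _).trans_lt (max_lt ?_ h3)
  rwa [norm_neg]

end Pool.Agent.Hhelper14.ZP
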