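import Pool.Agent.Hhelper14.ZP2.Translate
import Pool.Agent.ZPD.Stmt
import Pool.Agent.ZPD.Top
import Pool.Agent.ZPD.Ord

/-!
# The local analysis of the translates
-/

namespace Pool.Agent.Hhelper14.ZP

open MvPolynomial Pool.Agent.ZPD

variable {n : ℕ}

/-- the integral matrices of the translation by `z / m` -/
def gz (z : Fin n × Fin 3 → ℤ) (m : ℤ) : Fin n → Matrix (Fin 2) (Fin 2) ℤ := fun i =>
  !![m * z (i, 1), m * z (i, 0) - z (i, 1) * z (i, 2); m ^ 2, -(m * z (i, 2))]

theorem gz_det (z : Fin n × Fin 3 → ℤ) (m : ℤ) (i : Fin n) :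
    gz z m i 0 0 * gz z m i 1 1 - gz z m i 0 1 * gz z m i 1 0 = -(m ^ 3 * z (i, 0)) := by
  simp [gz]
  ring

theorem pglImage_eq (z : Fin n × Fin 3 → ℤ) {m : ℤ} (hm : m ≠ 0) (V : Set (Fin n → ℂ)) :
    pglImage (fun i => (z i : ℚ) / (m : ℚ)) V = mobImage (gz z m) V := by
  have hmC : (m : ℂ) ≠ 0 := by exact_mod_cast hm
  ext x
  simp only [pglImage, mobImage, Set.mem_ofPred_eq, gz, Matrix.of_apply, Matrix.cons_val',
    Matrix.cons_val_zero, Matrix.cons_val_one, Matrix.cons_val_fin_one]
  refine exists_congr fun y => and_congr_right fun _ => forall_congr' fun i => ?_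
  push_cast
  have e1 : (m : ℂ) ^ 2 * y i + -(m * z (i, 2)) = m ^ 2 * (y i - z (i, 2) / m) := by
    field_simp
    ring
  have e2 : (m : ℂ) ^ 2 * y i + -(m * z (i, 2)) ≠ 0 ↔ y i ≠ z (i, 2) / m := by
    rw [e1, mul_ne_zero_iff, sub_ne_zero]
    exact ⟨fun h => h.2, fun h => ⟨pow_ne_zero _ hmC, h⟩⟩
  rw [e2]
  refine and_congr_right fun h => ?_
  have h' : y i - z (i, 2) / m ≠ 0 := sub_ne_zero.mpr h
  have e3 : ((m : ℂ) * z (i, 1) * y i + (m * z (i, 0) - z (i, 1) * z (i, 2))) /
      (m ^ 2 * y i + -(m * z (i, 2))) = z (i, 1) / m + z (i, 0) / m / (y i - z (i, 2) / m) := by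
    rw [e1]
    have h'' : (m : ℂ) * y i - z (i, 2) ≠ 0 := by
      intro h0
      apply h
      rw [eq_div_iff hmC]
      linear_combination h0
    field_simp
    ring
  rw [e3]

theorem pglTranslate_eq (z : Fin n × Fin 3 → ℤ) {m : ℤ} (hm : m ≠ 0) (V : Set (Fin n → ℂ)) :
    pglTranslate (fun i => (z i : ℚ) / (m : ℚ)) V = translate (gz z m) V := by
  rw [pglTranslate, pglImage_eq z hm, translate]

/-- **At most `dim V` coordinates of a point of the translate are far from the `β_i`.** -/
theorem exists_near {V : Set (Fin n → ℂ)} {d : ℕ} {H : (J : Finset (Fin n)) → MvPolynomial J ℂ}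
    (hH : ∀ J : Finset (Fin n), J.card = d + 1 → rename ((↑) : J → Fin n) (H J) ∈ vanishingIdeal ℂ V)
    {p : ℕ} [hp : Fact p.Prime] {σ : ℂ →+* PadicComplex p}
    (hσ : ∀ (J : Finset (Fin n)) μ, ‖σ ((H J).coeff μ)‖ ≤ 1) {z : Fin n × Fin 3 → ℤ} {m : ℤ}
    (hm0 : m ≠ 0) (hm : (p : ℤ) ∣ m) (h0 : ∀ i, z (i, 0) ≠ 0)
    (hc : ∀ J : Finset (Fin n), J.card = d + 1 →
      ¬ ‖σ (eval (fun i : J => (z (i, 2) : ℂ)) (topForm (H J)))‖ < 1) {x : Fin n → ℂ}
    (hx : x ∈ translate (gz z m) V) :
    ∃ S : Finset (Fin n), n - d ≤ S.card ∧ ∀ i ∈ S, ‖m * σ (x i) - z (i, 1)‖ < 1 := by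
  classical
  let far : Finset (Fin n) := Finset.univ.filter fun i => 1 ≤ ‖m * σ (x i) - z (i, 1)‖
  have hfar : far.card ≤ d := by
    by_contra hcon
    rw [not_le] at hcon
    obtain ⟨J, hJfar, hJcard⟩ := Finset.exists_subset_card_eq hcon
    have hfarJ : ∀ i : J, 1 ≤ ‖m * σ (x i) - z (i, 1)‖ := fun i =>
      (Finset.mem_filter.mp (hJfar i.2)).2
    have hmK : (m : PadicComplex p) ≠ 0 := by exact_mod_cast hm0
    have hmn : ‖(m : PadicComplex p)‖ < 1 := (norm_intCast_lt_one_iff m).mpr hm
    have hX : ∀ i : J, (m : PadicComplex p) * σ (x i) - z (i, 1) ≠ 0 := by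
      intro i h
      have := hfarJ i
      rw [h, norm_zero] at this
      linarith
    have hdenC : ∀ i : J, -(gz z m i 1 0 : ℂ) * x i + (gz z m i 0 0 : ℂ) ≠ 0 := by
      intro i h
      apply hX i
      have h1 := congrArg σ h
      simp only [gz, Matrix.of_apply, Matrix.cons_val', Matrix.cons_val_zero, Matrix.cons_val_one,
        Matrix.cons_val_fin_one] at h1
      push_cast at h1
      simp only [map_add, map_mul, map_neg, map_pow, map_intCast, map_zero] at h1
      have h2 : -(m : PadicComplex p) * (m * σ (x i) - z (i, 1)) = 0 := by linear_combination h1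
      exact (mul_eq_zero.mp h2).resolve_left (neg_ne_zero.mpr hmK)
    have hdet : ∀ i, gz z m i 0 0 * gz z m i 1 1 - gz z m i 0 1 * gz z m i 1 0 ≠ 0 := fun i => by
      rw [gz_det]
      exact neg_ne_zero.mpr (mul_ne_zero (pow_ne_zero _ hm0) (h0 i))
    have h1 := relation_translate hdet (hH J hJcard) hx hdenC
    -- the vanishing in `ℂ_p`
    let w : J → PadicComplex p := fun i =>
      z (i, 2) + m * (z (i, 0) / (m * σ (x i) - z (i, 1)))
    have h2 : eval (fun i : J => w i / m) (MvPolynomial.map σ (H J)) = 0 := by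
      rw [MvPolynomial.eval_map]
      have h3 := congrArg σ h1
      rw [map_zero, ← MvPolynomial.eval₂_id, MvPolynomial.eval₂_comp_left, RingHom.comp_id] at h3
      rw [← h3]
      congr 1
      funext i
      simp only [Function.comp_apply, w, gz, Matrix.of_apply, Matrix.cons_val',
        Matrix.cons_val_zero, Matrix.cons_val_one, Matrix.cons_val_fin_one]
      push_cast
      simp only [map_add, map_sub, map_mul, map_neg, map_pow, map_intCast, map_div₀]
      have h4 := hX i
      have e : -((m : PadicComplex p) ^ 2) * σ (x i) + m * z (i, 1) =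
          -m * (m * σ (x i) - z (i, 1)) := by ring
      rw [e]
      field_simp
      ring
    have h3 : ‖eval (fun i : J => ((z (i, 2) : ℤ) : PadicComplex p))
        (topForm (MvPolynomial.map σ (H J)))‖ < 1 := by
      refine norm_topForm_lt (fun μ => ?_) hmK hmn (fun i => norm_intCast_le _) (fun i => ?_) h2
      · rw [coeff_map]
        exact hσ J μ
      · simp only [w]
        rw [add_sub_cancel_left, norm_mul, norm_div]
        have h4 : ‖((z (i, 0) : ℤ) : PadicComplex p)‖ / ‖m * σ (x i) - z (i, 1)‖ ≤ 1 := by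
          rw [div_le_one (by linarith [hfarJ i])]
          exact (norm_intCast_le _).trans (hfarJ i)
        exact (mul_le_of_le_one_right (norm_nonneg _) h4).trans_lt hmn
    apply hc J hJcard
    have h4 : topForm (MvPolynomial.map σ (H J)) = MvPolynomial.map σ (topForm (H J)) := by
      have h5 : (MvPolynomial.map σ (H J)).totalDegree = (H J).totalDegree := by
        rw [totalDegree, totalDegree, MvPolynomial.support_map_of_injective _ σ.injective]
      ext μ
      rw [topForm, topForm, coeff_map, coeff_homogeneousComponent, coeff_homogeneousComponent, h5,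
        coeff_map]
      split_ifs
      · rfl
      · rw [map_zero]
    rw [h4, MvPolynomial.eval_map] at h3
    have h5 : σ (eval (fun i : J => (z (i, 2) : ℂ)) (topForm (H J))) =
        MvPolynomial.eval₂ σ (fun i : J => ((z (i, 2) : ℤ) : PadicComplex p)) (topForm (H J)) := by
      rw [← MvPolynomial.eval₂_id, MvPolynomial.eval₂_comp_left, RingHom.comp_id]
      congr 1
      funext i
      simp
    rw [h5]
    exact h3
  refine ⟨farᶜ, ?_, fun i hi => ?_⟩
  · rw [Finset.card_compl, Fintype.card_fin]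
    omega
  · by_contra hcon
    rw [Finset.mem_compl] at hi
    exact hi (Finset.mem_filter.mpr ⟨Finset.mem_univ i, not_lt.mp hcon⟩)

end Pool.Agent.Hhelper14.ZP
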