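import Pool.Agent.ZPD.Box

/-!
# Counting rational points by integral vectors

PROOF. `card_ratPoints_ge`: fix `i₀ : ι`. The map `(z, m) ↦ z / m` is injective on the `(z, m)` in
the box with `z i₀` prime to `m`. The number of the pairs `(a, m)`, `1 ≤ a, m ≤ H`, that are not
coprime is at most `∑_p ⌊H / p⌋² ≤ H² (1/4 + ∑_{j ≥ 1} 1 / (2 j + 1)²) ≤ H² (1/4 + ∑_{j ≥ 1}
1 / (4 j (j + 1))) ≤ H² / 2`. So at least `H²` of the pairs `|a| ≤ H`, `1 ≤ m ≤ H` are coprime, and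
`H² ≥ (2 H + 1) H / 3`.
`tendsto_of_density`: the bad rational points of height at most `H` inject into the bad vectors.
-/

namespace Pool.Agent.ZPD

open Filter

theorem finite_box (ι : Type) [Finite ι] (H : ℕ) : (box ι H).Finite := by
  have h1 : {f : ι → ℤ | ∀ i, f i ∈ Set.Icc (-(H : ℤ)) H}.Finite :=
    Set.Finite.pi' fun _ => Set.finite_Icc _ _
  refine (h1.prod (Set.finite_Icc (1 : ℤ) H)).subset ?_
  rintro ⟨z, m⟩ ⟨h2, h3, h4⟩
  exact ⟨fun i => abs_le.1 (h2 i), h3, h4⟩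

lemma ratPoints_eq (ι : Type) (H : ℕ) :
    ratPoints ι H = (fun ω : (ι → ℤ) × ℤ => fun i => (ω.1 i : ℚ) / (ω.2 : ℚ)) '' box ι H := by
  ext q
  constructor
  · rintro ⟨ω, hω, h⟩
    exact ⟨ω, hω, funext fun i => (h i).symm⟩
  · rintro ⟨ω, hω, rfl⟩
    exact ⟨ω, hω, fun i => rfl⟩

theorem finite_ratPoints (ι : Type) [Finite ι] (H : ℕ) : (ratPoints ι H).Finite := by
  rw [ratPoints_eq]
  exact (finite_box ι H).image _

/-- the telescoping sum -/
lemma tele (n : ℕ) : ∑ j ∈ Finset.Icc 1 n, (1 : ℝ) / (4 * j * (j + 1)) = (1 - 1 / (n + 1)) / 4 := by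
  induction n with
  | zero => simp
  | succ k ih =>
    rw [Finset.sum_Icc_succ_top (by omega), ih]
    push_cast
    field_simp
    ring

lemma card_both (H d : ℕ) :
    ((Finset.Ioc 0 H ×ˢ Finset.Ioc 0 H).filter fun q : ℕ × ℕ => d ∣ q.1 ∧ d ∣ q.2).card =
      (H / d) ^ 2 := by
  rw [Finset.filter_product, Finset.card_product, Nat.Ioc_filter_dvd_card_eq_div, sq]

lemma not_coprime_le (H : ℕ) :
    (((Finset.Ioc 0 H ×ˢ Finset.Ioc 0 H).filter fun q : ℕ × ℕ => ¬ Nat.Coprime q.1 q.2).card : ℝ) ≤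
      (H : ℝ) ^ 2 / 2 := by
  classical
  set S : ℕ → Finset (ℕ × ℕ) := fun d =>
    (Finset.Ioc 0 H ×ˢ Finset.Ioc 0 H).filter fun q : ℕ × ℕ => d ∣ q.1 ∧ d ∣ q.2 with hS
  have hsub : ((Finset.Ioc 0 H ×ˢ Finset.Ioc 0 H).filter fun q : ℕ × ℕ => ¬ Nat.Coprime q.1 q.2) ⊆
      S 2 ∪ (Finset.Icc 1 H).biUnion fun j => S (2 * j + 1) := by
    intro q hq
    rw [Finset.mem_filter] at hq
    obtain ⟨hq1, hq2⟩ := hq
    obtain ⟨p, hp, hpa, hpm⟩ := Nat.Prime.not_coprime_iff_dvd.1 hq2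
    rw [Finset.mem_union]
    rcases hp.eq_two_or_odd' with rfl | hodd
    · left
      exact Finset.mem_filter.2 ⟨hq1, hpa, hpm⟩
    · right
      obtain ⟨j, rfl⟩ := hodd
      rw [Finset.mem_biUnion]
      refine ⟨j, ?_, Finset.mem_filter.2 ⟨hq1, hpa, hpm⟩⟩
      rw [Finset.mem_product, Finset.mem_Ioc, Finset.mem_Ioc] at hq1
      have h1 : 2 * j + 1 ≤ q.1 := Nat.le_of_dvd hq1.1.1 hpa
      have h2 := hp.one_lt
      rw [Finset.mem_Icc]
      omega
  have h1 := Finset.card_le_card hsub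
  have h2 : (S 2 ∪ (Finset.Icc 1 H).biUnion fun j => S (2 * j + 1)).card ≤
      (H / 2) ^ 2 + ∑ j ∈ Finset.Icc 1 H, (H / (2 * j + 1)) ^ 2 := by
    refine (Finset.card_union_le _ _).trans ?_
    refine Nat.add_le_add (card_both H 2).le ?_
    refine Finset.card_biUnion_le.trans ?_
    exact Finset.sum_le_sum fun j _ => (card_both H _).le
  have h3 : (((H / 2) ^ 2 + ∑ j ∈ Finset.Icc 1 H, (H / (2 * j + 1)) ^ 2 : ℕ) : ℝ) ≤
      (H : ℝ) ^ 2 / 2 := by
    push_cast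
    have e1 : ((H / 2 : ℕ) : ℝ) ^ 2 ≤ (H : ℝ) ^ 2 / 4 := by
      have : ((H / 2 : ℕ) : ℝ) ≤ (H : ℝ) / (2 : ℕ) := Nat.cast_div_le
      have h0 : (0 : ℝ) ≤ ((H / 2 : ℕ) : ℝ) := Nat.cast_nonneg _
      push_cast at this
      nlinarith
    have e2 : ∀ j ∈ Finset.Icc 1 H, ((H / (2 * j + 1) : ℕ) : ℝ) ^ 2 ≤
        (H : ℝ) ^ 2 * (1 / (4 * j * (j + 1))) := by
      intro j hj
      have hj1 : 1 ≤ j := (Finset.mem_Icc.1 hj).1
      have hj1' : (1 : ℝ) ≤ j := by exact_mod_cast hj1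
      have h4 : ((H / (2 * j + 1) : ℕ) : ℝ) ≤ (H : ℝ) / ((2 * j + 1 : ℕ) : ℝ) := Nat.cast_div_le
      have h0 : (0 : ℝ) ≤ ((H / (2 * j + 1) : ℕ) : ℝ) := Nat.cast_nonneg _
      calc ((H / (2 * j + 1) : ℕ) : ℝ) ^ 2 ≤ ((H : ℝ) / ((2 * j + 1 : ℕ) : ℝ)) ^ 2 :=
            pow_le_pow_left₀ h0 h4 2
        _ = (H : ℝ) ^ 2 * (1 / (2 * j + 1) ^ 2) := by
            push_cast
            rw [div_pow]
            ring
        _ ≤ (H : ℝ) ^ 2 * (1 / (4 * j * (j + 1))) := by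
            refine mul_le_mul_of_nonneg_left ?_ (by positivity)
            refine one_div_le_one_div_of_le (by positivity) ?_
            nlinarith
    have e3 : ∑ j ∈ Finset.Icc 1 H, ((H / (2 * j + 1) : ℕ) : ℝ) ^ 2 ≤ (H : ℝ) ^ 2 / 4 := by
      refine (Finset.sum_le_sum e2).trans ?_
      rw [← Finset.mul_sum, tele]
      have : (0 : ℝ) ≤ 1 / ((H : ℝ) + 1) := by positivity
      nlinarith [sq_nonneg (H : ℝ)]
    linarith
  calc _ ≤ (((H / 2) ^ 2 + ∑ j ∈ Finset.Icc 1 H, (H / (2 * j + 1)) ^ 2 : ℕ) : ℝ) := by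
        exact_mod_cast h1.trans h2
    _ ≤ _ := h3

lemma coprime_ge (H : ℕ) :
    (H : ℝ) ^ 2 / 2 ≤
      ((Finset.Ioc 0 H ×ˢ Finset.Ioc 0 H).filter fun q : ℕ × ℕ => Nat.Coprime q.1 q.2).card := by
  have h1 := Finset.card_filter_add_card_filter_not (s := Finset.Ioc 0 H ×ˢ Finset.Ioc 0 H)
    (fun q : ℕ × ℕ => Nat.Coprime q.1 q.2)
  rw [Finset.card_product, Nat.card_Ioc, Nat.sub_zero] at h1
  have h2 := not_coprime_le H
  have h3 : (((Finset.Ioc 0 H ×ˢ Finset.Ioc 0 H).filter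
      fun q : ℕ × ℕ => Nat.Coprime q.1 q.2).card : ℝ) +
      ((Finset.Ioc 0 H ×ˢ Finset.Ioc 0 H).filter fun q : ℕ × ℕ => ¬ Nat.Coprime q.1 q.2).card =
      (H : ℝ) * H := by exact_mod_cast h1
  nlinarith

/-- the coprime pairs `(a, m)` with `|a| ≤ H` and `1 ≤ m ≤ H` -/
noncomputable def pairs (H : ℕ) : Finset (ℤ × ℤ) :=
  (Finset.Icc (-(H : ℤ)) H ×ˢ Finset.Icc (1 : ℤ) H).filter fun q => Int.gcd q.1 q.2 = 1

lemma card_pairs_ge (H : ℕ) : (H : ℝ) ^ 2 ≤ (pairs H).card := by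
  classical
  set C := (Finset.Ioc 0 H ×ˢ Finset.Ioc 0 H).filter fun q : ℕ × ℕ => Nat.Coprime q.1 q.2 with hC
  have hCge := coprime_ge H
  set f : ℕ × ℕ → ℤ × ℤ := fun q => ((q.1 : ℤ), (q.2 : ℤ)) with hf
  set g : ℕ × ℕ → ℤ × ℤ := fun q => (-(q.1 : ℤ), (q.2 : ℤ)) with hg
  have hfi : Function.Injective f := by
    intro q r h
    simp only [hf, Prod.mk.injEq, Nat.cast_inj] at h
    exact Prod.ext h.1 h.2
  have hgi : Function.Injective g := by
    intro q r h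
    simp only [hg, Prod.mk.injEq, neg_inj, Nat.cast_inj] at h
    exact Prod.ext h.1 h.2
  have hmem : ∀ q ∈ C, 0 < q.1 ∧ q.1 ≤ H ∧ 0 < q.2 ∧ q.2 ≤ H ∧ Nat.Coprime q.1 q.2 := by
    intro q hq
    rw [hC, Finset.mem_filter, Finset.mem_product, Finset.mem_Ioc, Finset.mem_Ioc] at hq
    exact ⟨hq.1.1.1, hq.1.1.2, hq.1.2.1, hq.1.2.2, hq.2⟩
  have hsub : C.image f ∪ C.image g ⊆ pairs H := by
    intro r hr
    rw [Finset.mem_union, Finset.mem_image, Finset.mem_image] at hr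
    rcases hr with ⟨q, hq, rfl⟩ | ⟨q, hq, rfl⟩
    · obtain ⟨h1, h2, h3, h4, h5⟩ := hmem q hq
      simp only [pairs, hf, Finset.mem_filter, Finset.mem_product, Finset.mem_Icc,
        Int.gcd_natCast_natCast]
      exact ⟨⟨⟨by omega, by omega⟩, by omega, by omega⟩, h5⟩
    · obtain ⟨h1, h2, h3, h4, h5⟩ := hmem q hq
      simp only [pairs, hg, Finset.mem_filter, Finset.mem_product, Finset.mem_Icc,
        Int.neg_gcd, Int.gcd_natCast_natCast]
      exact ⟨⟨⟨by omega, by omega⟩, by omega, by omega⟩, h5⟩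
  have hdis : Disjoint (C.image f) (C.image g) := by
    rw [Finset.disjoint_left]
    intro r hr hr'
    rw [Finset.mem_image] at hr hr'
    obtain ⟨q, hq, rfl⟩ := hr
    obtain ⟨q', hq', h⟩ := hr'
    have h1 := (hmem q hq).1
    have h2 := (hmem q' hq').1
    have h3 := congrArg Prod.fst h
    simp only [hf, hg] at h3
    omega
  have hcard := Finset.card_le_card hsub
  rw [Finset.card_union_of_disjoint hdis, Finset.card_image_of_injective _ hfi,
    Finset.card_image_of_injective _ hgi] at hcard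
  have : ((C.card + C.card : ℕ) : ℝ) ≤ (pairs H).card := by exact_mod_cast hcard
  push_cast at this
  linarith

theorem card_ratPoints_ge (ι : Type) [Fintype ι] [Nonempty ι] {H : ℕ} (hH : 1 ≤ H) :
    (2 * (H : ℝ) + 1) ^ Fintype.card ι * H ≤ 3 * ((ratPoints ι H).ncard : ℝ) := by
  classical
  obtain ⟨i₀⟩ := ‹Nonempty ι›
  set I : Finset ℤ := Finset.Icc (-(H : ℤ)) H with hI
  have hIcard : I.card = 2 * H + 1 := by
    rw [hI, Int.card_Icc]
    omega
  set B : Finset ((ι → ℤ) × ℤ) :=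
    ((Fintype.piFinset fun _ : ι => I) ×ˢ Finset.Icc (1 : ℤ) H).filter
      fun ω => Int.gcd (ω.1 i₀) ω.2 = 1 with hB
  have hBmem : ∀ ω ∈ B, (∀ i, |ω.1 i| ≤ (H : ℤ)) ∧ 1 ≤ ω.2 ∧ ω.2 ≤ (H : ℤ) ∧
      Int.gcd (ω.1 i₀) ω.2 = 1 := by
    intro ω hω
    rw [hB, Finset.mem_filter, Finset.mem_product, Fintype.mem_piFinset, Finset.mem_Icc] at hω
    refine ⟨fun i => ?_, hω.1.2.1, hω.1.2.2, hω.2⟩
    have := hω.1.1 i
    rw [hI, Finset.mem_Icc] at this
    exact abs_le.2 this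
  -- the number of vectors
  have hcardB : B.card = (pairs H).card * (2 * H + 1) ^ (Fintype.card ι - 1) := by
    have hmaps : (B : Set ((ι → ℤ) × ℤ)).MapsTo (fun ω => (ω.1 i₀, ω.2)) (pairs H) := by
      intro ω hω
      have h := hBmem ω (Finset.mem_coe.1 hω)
      simp only [pairs, Finset.coe_filter, Finset.mem_product, Finset.mem_Icc, Set.mem_ofPred_eq]
      have h1 := abs_le.1 (h.1 i₀)
      exact ⟨⟨h1, h.2.1, h.2.2.1⟩, h.2.2.2⟩
    rw [Finset.card_eq_sum_card_fiberwise hmaps]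
    have hfib : ∀ q ∈ pairs H, (B.filter fun ω => (ω.1 i₀, ω.2) = q).card =
        (2 * H + 1) ^ (Fintype.card ι - 1) := by
      intro q hq
      simp only [pairs, Finset.mem_filter, Finset.mem_product] at hq
      obtain ⟨⟨hq1, hq2⟩, hq3⟩ := hq
      have e : (B.filter fun ω => (ω.1 i₀, ω.2) = q) =
          ((Fintype.piFinset fun _ : ι => I).filter fun z => z i₀ = q.1) ×ˢ {q.2} := by
        ext ω
        simp only [hB, Finset.mem_filter, Finset.mem_product, Finset.mem_singleton, Prod.ext_iff]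
        constructor
        · rintro ⟨⟨⟨h1, h2⟩, h3⟩, h4, h5⟩
          exact ⟨⟨h1, h4⟩, h5⟩
        · rintro ⟨⟨h1, h4⟩, h5⟩
          refine ⟨⟨⟨h1, ?_⟩, ?_⟩, h4, h5⟩
          · rw [h5]; exact hq2
          · rw [h4, h5]; exact hq3
      rw [e, Finset.card_product, Finset.card_singleton, mul_one,
        Fintype.card_filter_piFinset_const_eq_of_mem I i₀ hq1, hIcard]
    rw [Finset.sum_congr rfl hfib, Finset.sum_const, smul_eq_mul]
  -- injectivity
  have hinj : Set.InjOn (fun ω : (ι → ℤ) × ℤ => fun i => (ω.1 i : ℚ) / (ω.2 : ℚ)) B := by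
    intro ω hω ω' hω' h
    have h1 := hBmem ω (Finset.mem_coe.1 hω)
    have h2 := hBmem ω' (Finset.mem_coe.1 hω')
    have hm : (0 : ℤ) < ω.2 := by omega
    have hm' : (0 : ℤ) < ω'.2 := by omega
    have hmQ : (ω.2 : ℚ) ≠ 0 := by exact_mod_cast hm.ne'
    have hmQ' : (ω'.2 : ℚ) ≠ 0 := by exact_mod_cast hm'.ne'
    have h3 : ∀ i, ω.1 i * ω'.2 = ω'.1 i * ω.2 := by
      intro i
      have h4 := congrFun h i
      simp only at h4
      rw [div_eq_div_iff hmQ hmQ'] at h4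
      exact_mod_cast h4
    have h5 : ω.2 = ω'.2 := by
      have h6 := h3 i₀
      have hc : IsCoprime (ω.1 i₀) ω.2 := Int.isCoprime_iff_gcd_eq_one.2 h1.2.2.2
      have hc' : IsCoprime (ω'.1 i₀) ω'.2 := Int.isCoprime_iff_gcd_eq_one.2 h2.2.2.2
      have d1 : ω.2 ∣ ω'.2 := by
        refine hc.symm.dvd_of_dvd_mul_left ?_
        rw [h6]
        exact dvd_mul_left _ _
      have d2 : ω'.2 ∣ ω.2 := by
        refine hc'.symm.dvd_of_dvd_mul_left ?_
        rw [← h6]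
        exact dvd_mul_left _ _
      exact Int.dvd_antisymm hm.le hm'.le d1 d2
    refine Prod.ext (funext fun i => ?_) h5
    have h7 := h3 i
    rw [h5] at h7
    exact mul_right_cancel₀ hm'.ne' h7
  have hle : B.card ≤ (ratPoints ι H).ncard := by
    rw [← Set.ncard_coe_finset, ← hinj.ncard_image]
    refine Set.ncard_le_ncard ?_ (finite_ratPoints ι H)
    rintro _ ⟨ω, hω, rfl⟩
    have h1 := hBmem ω (Finset.mem_coe.1 hω)
    exact ⟨ω, ⟨h1.1, h1.2.1, h1.2.2.1⟩, fun i => rfl⟩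
  have hpairs := card_pairs_ge H
  have hn : Fintype.card ι = (Fintype.card ι - 1) + 1 := by
    have : 0 < Fintype.card ι := Fintype.card_pos_iff.2 ⟨i₀⟩
    omega
  have hH' : (1 : ℝ) ≤ H := by exact_mod_cast hH
  have hpow : (0 : ℝ) < (2 * (H : ℝ) + 1) ^ (Fintype.card ι - 1) := by positivity
  have h8 : ((pairs H).card : ℝ) * (2 * (H : ℝ) + 1) ^ (Fintype.card ι - 1) ≤
      (ratPoints ι H).ncard := by
    have : ((pairs H).card * (2 * H + 1) ^ (Fintype.card ι - 1) : ℕ) ≤ (ratPoints ι H).ncard := by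
      rw [← hcardB]
      exact hle
    exact_mod_cast this
  calc (2 * (H : ℝ) + 1) ^ Fintype.card ι * H
      = (2 * (H : ℝ) + 1) ^ (Fintype.card ι - 1) * ((2 * H + 1) * H) := by
        conv_lhs => rw [hn, pow_succ]
        ring
    _ ≤ (2 * (H : ℝ) + 1) ^ (Fintype.card ι - 1) * (3 * (pairs H).card) := by
        refine mul_le_mul_of_nonneg_left ?_ hpow.le
        nlinarith
    _ = 3 * ((pairs H).card * (2 * (H : ℝ) + 1) ^ (Fintype.card ι - 1)) := by ring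
    _ ≤ 3 * ((ratPoints ι H).ncard : ℝ) := by linarith

/-- **From integral vectors to rational points ordered by height.** -/
theorem tendsto_of_density {ι : Type} [Fintype ι] [Nonempty ι] (Good : (ι → ℚ) → Prop)
    (h : ∀ ε : ℝ, 0 < ε → ∀ᶠ H : ℕ in atTop,
      (Set.ncard {ω ∈ box ι H | ¬ Good (fun i => (ω.1 i : ℚ) / (ω.2 : ℚ))} : ℝ) ≤
        ε * ((2 * (H : ℝ) + 1) ^ Fintype.card ι * H)) :
    Tendsto (fun H : ℕ => (Set.ncard {q ∈ ratPoints ι H | Good q} : ℝ) /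
      (Set.ncard (ratPoints ι H) : ℝ)) atTop (nhds 1) := by
  rw [Metric.tendsto_nhds]
  intro ε hε
  filter_upwards [h (ε / 6) (by positivity), eventually_ge_atTop 1] with H hH hH1
  set N : ℝ := ((ratPoints ι H).ncard : ℝ) with hN
  set G : ℝ := ((Set.ncard {q ∈ ratPoints ι H | Good q} : ℕ) : ℝ) with hG
  set Bd : ℝ := ((Set.ncard {q ∈ ratPoints ι H | ¬ Good q} : ℕ) : ℝ) with hBd
  have hfin := finite_ratPoints ι H
  have hsum : G + Bd = N := by
    have h1 : {q ∈ ratPoints ι H | Good q} ∪ {q ∈ ratPoints ι H | ¬ Good q} = ratPoints ι H := by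
      ext q
      simp only [Set.mem_union, Set.mem_ofPred_eq]
      tauto
    have h2 : Disjoint {q ∈ ratPoints ι H | Good q} {q ∈ ratPoints ι H | ¬ Good q} := by
      rw [Set.disjoint_left]
      rintro q ⟨_, h3⟩ ⟨_, h4⟩
      exact h4 h3
    have h3 := Set.ncard_union_eq h2 (hfin.subset fun q hq => hq.1) (hfin.subset fun q hq => hq.1)
    rw [h1] at h3
    rw [hG, hBd, hN]
    exact_mod_cast h3.symm
  have hge := card_ratPoints_ge ι hH1
  have hNpos : 0 < N := by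
    have : (0 : ℝ) < (2 * (H : ℝ) + 1) ^ Fintype.card ι * H := by
      have : (0 : ℝ) < H := by exact_mod_cast hH1
      positivity
    linarith
  have hBle : Bd ≤ ε / 6 * ((2 * (H : ℝ) + 1) ^ Fintype.card ι * H) := by
    refine le_trans ?_ hH
    have hfb : {ω ∈ box ι H | ¬ Good (fun i => (ω.1 i : ℚ) / (ω.2 : ℚ))}.Finite :=
      (finite_box ι H).subset fun ω hω => hω.1
    have hsub : {q ∈ ratPoints ι H | ¬ Good q} ⊆
        (fun ω : (ι → ℤ) × ℤ => fun i => (ω.1 i : ℚ) / (ω.2 : ℚ)) ''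
          {ω ∈ box ι H | ¬ Good (fun i => (ω.1 i : ℚ) / (ω.2 : ℚ))} := by
      rintro q ⟨⟨ω, hω, hq⟩, hbad⟩
      have e : q = fun i => (ω.1 i : ℚ) / (ω.2 : ℚ) := funext hq
      refine ⟨ω, ⟨hω, ?_⟩, e.symm⟩
      rwa [← e]
    have h1 := (Set.ncard_le_ncard hsub (hfb.image _)).trans (Set.ncard_image_le hfb)
    rw [hBd]
    exact_mod_cast h1
  have hB2 : Bd ≤ ε / 2 * N := by nlinarith
  have hG1 : G / N = 1 - Bd / N := by
    rw [eq_sub_iff_add_eq, ← add_div, hsum, div_self hNpos.ne']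
  rw [Real.dist_eq, hG1]
  have hBd0 : 0 ≤ Bd := by
    rw [hBd]
    exact Nat.cast_nonneg _
  have h4 : Bd / N ≤ ε / 2 := by
    rw [div_le_iff₀ hNpos]
    exact hB2
  have h5 : 0 ≤ Bd / N := div_nonneg hBd0 hNpos.le
  rw [abs_lt]
  constructor <;> linarith

end Pool.Agent.ZPD
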