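import Pool.Agent.Hhelper14.ZP2.Sigma

/-!
# Good embeddings of `ℂ` into `ℂ_p` for all large `p`
-/

namespace Pool.Agent.Hhelper14.ZP

open MvPolynomial

/-- **Good embeddings**: given finitely many complex numbers, for all large primes `p` there is an
embedding of `ℂ` into `ℂ_p` for which these numbers are integral. -/
theorem exists_sigma_all (T : Finset ℂ) : ∃ P₀ : ℕ, ∀ (p : ℕ) [Fact p.Prime], P₀ ≤ p →
    ∃ σ : ℂ →+* PadicComplex p, ∀ t ∈ T, ‖σ t‖ ≤ 1 := by
  classical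
  obtain ⟨B, hB⟩ := exists_isTranscendenceBasis ℤ ℂ
  let _ : Algebra (MvPolynomial B ℤ) ℂ := (MvPolynomial.aeval ((↑) : B → ℂ)).toRingHom.toAlgebra
  have halg' := hB.isAlgebraic
  have halg : Algebra.IsAlgebraic (MvPolynomial B ℤ) ℂ := by
    refine Algebra.IsAlgebraic.of_ringHom_of_comp_eq
      (S := Algebra.adjoin ℤ (Set.range ((↑) : B → ℂ))) (B := ℂ)
      (hB.1.aevalEquiv : MvPolynomial B ℤ →+* _) (RingHom.id ℂ) hB.1.aevalEquiv.surjective
      Function.injective_id ?_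
    apply MvPolynomial.ringHom_ext
    · intro r
      simp
    · intro b
      simp only [RingHom.comp_apply, RingHom.id_apply]
      have h2 : (algebraMap (MvPolynomial B ℤ) ℂ) (X b) = (b : ℂ) := MvPolynomial.aeval_X _ b
      rw [h2]
      have h3 : (algebraMap (Algebra.adjoin ℤ (Set.range ((↑) : B → ℂ))) ℂ)
          (hB.1.aevalEquiv (X b)) = MvPolynomial.aeval ((↑) : B → ℂ) (X b) :=
        hB.1.algebraMap_aevalEquiv (X b)
      rw [MvPolynomial.aeval_X] at h3
      exact h3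
  have hint : ∀ t : ℂ, ∃ y : MvPolynomial B ℤ, y ≠ 0 ∧ IsIntegral (MvPolynomial B ℤ) (y • t) :=
    fun t => (halg.isAlgebraic t).exists_integral_multiple
  choose C hC0 hC using hint
  have hprod : (∏ t ∈ T, C t) ≠ 0 := Finset.prod_ne_zero_iff.mpr fun t _ => hC0 t
  obtain ⟨m, hm⟩ : ∃ m : B → ℤ, MvPolynomial.eval m (∏ t ∈ T, C t) ≠ 0 := by
    by_contra hcon
    push Not at hcon
    exact hprod (MvPolynomial.funext fun m => by rw [hcon m, map_zero])
  refine ⟨(MvPolynomial.eval m (∏ t ∈ T, C t)).natAbs + 1, fun p hfact hpP => ?_⟩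
  have hp : p.Prime := hfact.out
  obtain ⟨σ₁⟩ := exists_embedding p
  have hpn : ‖(p : PadicComplex p)‖ < 1 := by
    rw [norm_p_eq]
    exact inv_lt_one_of_one_lt₀ (by exact_mod_cast hp.one_lt)
  obtain ⟨σ, hσ⟩ := sigma_aux (K := PadicComplex p) norm_intCast_le hp.ne_zero hpn σ₁ hB m
  refine ⟨σ, fun t ht => ?_⟩
  have hndvd : ¬ (p : ℤ) ∣ MvPolynomial.eval m (C t) := by
    intro hdvd
    have h1 : (p : ℤ) ∣ MvPolynomial.eval m (∏ t ∈ T, C t) := by
      rw [map_prod]
      exact hdvd.trans (Finset.dvd_prod_of_mem _ ht)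
    have h2 := Int.natAbs_dvd_natAbs.mpr h1
    rw [Int.natAbs_natCast] at h2
    have h3 := Nat.le_of_dvd (Int.natAbs_pos.mpr hm) h2
    omega
  have hunit : ‖σ (MvPolynomial.aeval ((↑) : B → ℂ) (C t))‖ = 1 := by
    have h1 : ‖((MvPolynomial.eval m (C t) : ℤ) : PadicComplex p)‖ = 1 := by
      rw [norm_intCast_eq]
      refine le_antisymm (Padic.norm_int_le_one _) ?_
      by_contra hcon
      exact hndvd (Padic.norm_intCast_lt_one_iff.mp (not_le.mp hcon))
    have h2 := (hσ (C t)).2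
    have e : σ (MvPolynomial.aeval ((↑) : B → ℂ) (C t)) =
        (σ (MvPolynomial.aeval ((↑) : B → ℂ) (C t)) - (MvPolynomial.eval m (C t) : ℤ)) +
          (MvPolynomial.eval m (C t) : ℤ) := by ring
    have h3 : ‖σ (MvPolynomial.aeval ((↑) : B → ℂ) (C t)) - (MvPolynomial.eval m (C t) : ℤ)‖ <
        ‖((MvPolynomial.eval m (C t) : ℤ) : PadicComplex p)‖ := by rw [h1]; exact h2
    rw [e, IsUltrametricDist.norm_add_eq_max_of_norm_ne_norm h3.ne, max_eq_right h3.le, h1]
  -- the integral multiple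
  obtain ⟨Q, hQ, hQt⟩ := hC t
  have h5 : ‖σ (C t • t)‖ ≤ 1 := by
    let φ : MvPolynomial B ℤ →+* PadicComplex p :=
      σ.comp (algebraMap (MvPolynomial B ℤ) ℂ)
    refine norm_le_of_root' (P := Q.map φ) (hQ.map φ) ?_ fun k => ?_
    · have h6 := congrArg σ hQt
      rw [map_zero, Polynomial.hom_eval₂] at h6
      rw [Polynomial.eval_map]
      exact h6
    · rw [Polynomial.coeff_map]
      exact (hσ (Q.coeff k)).1
  have h6 : C t • t = MvPolynomial.aeval ((↑) : B → ℂ) (C t) * t := rfl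
  rw [h6, map_mul, norm_mul, hunit, one_mul] at h5
  exact h5

end Pool.Agent.Hhelper14.ZP
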