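import Pool.Agent.ZPD.Red
import Pool.Agent.ZPD.Sig
import Pool.Agent.ZPD.Local

/-!
# Most residues modulo a large prime are good
-/

namespace Pool.Agent.Hhelper14.ZP

open MvPolynomial Pool.Agent.ZPD

variable {n : ℕ}

/-- the conditions on `z` modulo `p` -/
def GoodAt (d : ℕ) (H : (J : Finset (Fin n)) → MvPolynomial J ℂ) (v : Fin n → ℂ) (B p : ℕ)
    (z : Fin n × Fin 3 → ℤ) : Prop :=
  (∀ i, ¬ (p : ℤ) ∣ z i) ∧
  (∀ i j, i ≠ j → ∀ e : ℕ, 0 < e → e < B → ¬ (p : ℤ) ∣ z (i, 1) ^ e - z (j, 1) ^ e) ∧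
  ∃ (_ : Fact p.Prime) (σ : ℂ →+* PadicComplex p),
    (∀ (J : Finset (Fin n)) μ, ‖σ ((H J).coeff μ)‖ ≤ 1) ∧ (∀ i, ‖σ (v i)‖ ≤ 1) ∧
    ∀ J : Finset (Fin n), J.card = d + 1 →
      ¬ ‖σ (eval (fun i : J => (z (i, 2) : ℂ)) (topForm (H J)))‖ < 1

/-- the good residues -/
def GSet (d : ℕ) (H : (J : Finset (Fin n)) → MvPolynomial J ℂ) (v : Fin n → ℂ) (B p : ℕ) :
    Set (Fin n × Fin 3 → ZMod p) :=
  {r | ∀ z : Fin n × Fin 3 → ℤ, (fun i => (z i : ZMod p)) = r → GoodAt d H v B p z}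

theorem gSet_anti (d : ℕ) (H : (J : Finset (Fin n)) → MvPolynomial J ℂ) (v : Fin n → ℂ)
    (B B' p : ℕ) (h : B ≤ B') : GSet d H v B' p ⊆ GSet d H v B p := fun r hr z hz => by
  obtain ⟨h1, h2, h3⟩ := hr z hz
  exact ⟨h1, fun i j hij e he heB => h2 i j hij e he (heB.trans_le h), h3⟩

theorem exists_phi (p : ℕ) [hp : Fact p.Prime] :
    ∃ φ : ZMod p →+* resRing (PadicComplex p), ∀ z : ℤ, φ (z : ZMod p) = (z : resRing _) := by
  have h0 : ((p : ℕ) : resRing (PadicComplex p)) = 0 := by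
    have h1 : ((p : ℕ) : resRing (PadicComplex p)) =
        Ideal.Quotient.mk (maxIdeal (PadicComplex p)) ((p : ℕ) : intRing (PadicComplex p)) := by
      rw [map_natCast]
    rw [h1, Ideal.Quotient.eq_zero_iff_mem, mem_maxIdeal]
    have h2 : (((p : ℕ) : intRing (PadicComplex p)) : PadicComplex p) = (p : PadicComplex p) := by
      simp
    rw [h2, norm_p_eq]
    exact inv_lt_one_of_one_lt₀ (by exact_mod_cast hp.out.one_lt)
  have : CharP (resRing (PadicComplex p)) p := (CharP.charP_iff_prime_eq_zero hp.out).mpr h0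
  exact ⟨ZMod.castHom dvd_rfl _, fun z => map_intCast _ z⟩

theorem exists_bound (d : ℕ) (H : (J : Finset (Fin n)) → MvPolynomial J ℂ) (hH0 : ∀ J, H J ≠ 0)
    (v : Fin n → ℂ) (B : ℕ) : ∃ P₀ : ℕ, ∀ p : ℕ, p.Prime → P₀ ≤ p →
      (p : ℝ) ^ Fintype.card (Fin n × Fin 3) ≤ 2 * ((GSet d H v B p).ncard : ℝ) := by
  classical
  have hco : ∀ J, ∃ μ, (topForm (H J)).coeff μ ≠ 0 := fun J =>
    ne_zero_iff.mp (topForm_ne_zero (hH0 J))
  choose μ₀ hμ₀ using hco
  let T₁ : Finset ℂ := Finset.univ.biUnion fun J : Finset (Fin n) =>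
      (H J).support.image fun μ => (H J).coeff μ
  let T₂ : Finset ℂ := Finset.univ.image fun J : Finset (Fin n) =>
    ((topForm (H J)).coeff (μ₀ J))⁻¹
  let T₃ : Finset ℂ := Finset.univ.image v
  obtain ⟨P₁, hP₁⟩ := exists_sigma_all (T₁ ∪ (T₂ ∪ T₃))
  let D : ℕ := (∑ _i : Fin n × Fin 3, 1) + (∑ x : Fin n × Fin n, ∑ e ∈ Finset.Ico 1 B, e) +
    ∑ J : Finset (Fin n), (H J).totalDegree
  refine ⟨max P₁ (2 * D), fun p hp hpP => ?_⟩
  have hF : Fact p.Prime := ⟨hp⟩
  obtain ⟨σ, hσ⟩ := hP₁ p ((le_max_left _ _).trans hpP)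
  have hσ1 : ∀ (J : Finset (Fin n)) μ, ‖σ ((H J).coeff μ)‖ ≤ 1 := fun J μ => by
    by_cases hμ : μ ∈ (H J).support
    · exact hσ _ (Finset.mem_union_left _ (Finset.mem_biUnion.mpr
        ⟨J, Finset.mem_univ _, Finset.mem_image_of_mem _ hμ⟩))
    · rw [notMem_support_iff.mp hμ, map_zero, norm_zero]
      exact zero_le_one
  have hσ1' : ∀ (J : Finset (Fin n)) μ, ‖σ ((topForm (H J)).coeff μ)‖ ≤ 1 := fun J μ => by
    rw [topForm, coeff_homogeneousComponent]
    split_ifs
    · exact hσ1 J μ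
    · simp
  have hσ2 : ∀ J : Finset (Fin n), ‖σ ((topForm (H J)).coeff (μ₀ J))‖ = 1 := fun J => by
    refine le_antisymm (hσ1' J _) ?_
    have h1 := hσ _ (Finset.mem_union_right T₁ (Finset.mem_union_left T₃
      (Finset.mem_image_of_mem (fun J => ((topForm (H J)).coeff (μ₀ J))⁻¹) (Finset.mem_univ J))))
    rw [map_inv₀, norm_inv] at h1
    have h2 : 0 < ‖σ ((topForm (H J)).coeff (μ₀ J))‖ :=
      norm_pos_iff.mpr ((map_ne_zero σ).mpr (hμ₀ J))
    by_contra hcon
    rw [not_le] at hcon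
    have := (one_lt_inv₀ h2).mpr hcon
    linarith
  have hσ3 : ∀ i, ‖σ (v i)‖ ≤ 1 := fun i => hσ _ (Finset.mem_union_right _
    (Finset.mem_union_right _ (Finset.mem_image_of_mem _ (Finset.mem_univ i))))
  -- the reductions
  have hred : ∀ J : Finset (Fin n), ∃ g : MvPolynomial (Fin n × Fin 3) (resRing (PadicComplex p)),
      g ≠ 0 ∧ g.totalDegree ≤ (H J).totalDegree ∧ ∀ z : Fin n × Fin 3 → ℤ,
        (‖σ (eval (fun i : J => (z (i, 2) : ℂ)) (topForm (H J)))‖ < 1 ↔
          eval (fun i => (z i : resRing (PadicComplex p))) g = 0) := by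
    intro J
    let ρ : J → Fin n × Fin 3 := fun i => ((i : Fin n), 2)
    have hρ : Function.Injective ρ := fun a b h => Subtype.ext (congrArg Prod.fst h)
    obtain ⟨g, hg0, hgd, hg⟩ := exists_red (K := PadicComplex p)
      (rename ρ (MvPolynomial.map σ (topForm (H J)))) (fun μ => by
        by_cases h : μ ∈ Set.range (Finsupp.mapDomain ρ)
        · obtain ⟨μ', rfl⟩ := h
          rw [coeff_rename_mapDomain _ hρ, coeff_map]
          exact hσ1' J μ'
        · rw [coeff_rename_eq_zero _ _ _ fun u hu => by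
            exact absurd ⟨u, hu⟩ h, norm_zero]
          exact zero_le_one) ⟨Finsupp.mapDomain ρ (μ₀ J), by
            rw [coeff_rename_mapDomain _ hρ, coeff_map, hσ2]⟩
    refine ⟨g, hg0, hgd.trans ?_, fun z => ?_⟩
    · refine (totalDegree_rename_le _ _).trans ?_
      refine Finset.sup_le fun μ hμ => ?_
      rw [mem_support_iff, coeff_map] at hμ
      have h1 : (topForm (H J)).coeff μ ≠ 0 := fun h => hμ (by rw [h, map_zero])
      rw [topForm, coeff_homogeneousComponent] at h1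
      have h2 : (H J).coeff μ ≠ 0 := by
        intro h
        rw [h] at h1
        simp at h1
      exact le_totalDegree (mem_support_iff.mpr h2)
    · rw [← hg z, eval_rename, eval_map]
      have h5 : σ (eval (fun i : J => (z (i, 2) : ℂ)) (topForm (H J))) =
          MvPolynomial.eval₂ σ ((fun i => (z i : PadicComplex p)) ∘ ρ) (topForm (H J)) := by
        rw [← MvPolynomial.eval₂_id, MvPolynomial.eval₂_comp_left, RingHom.comp_id]
        congr 1
        funext i
        simp [ρ]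
      rw [h5]
  choose g hg0 hgd hg using hred
  obtain ⟨φ, hφ⟩ := exists_phi p
  -- the polynomial
  let Φ₁ : MvPolynomial (Fin n × Fin 3) (resRing (PadicComplex p)) := ∏ i, X i
  let Φ₂ : MvPolynomial (Fin n × Fin 3) (resRing (PadicComplex p)) :=
    ∏ x : Fin n × Fin n, ∏ e ∈ Finset.Ico 1 B,
      if x.1 = x.2 then 1 else X (x.1, 1) ^ e - X (x.2, 1) ^ e
  let Φ₃ : MvPolynomial (Fin n × Fin 3) (resRing (PadicComplex p)) := ∏ J, g J
  let Φ := Φ₁ * Φ₂ * Φ₃
  have hΦ0 : Φ ≠ 0 := by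
    refine mul_ne_zero (mul_ne_zero ?_ ?_) ?_
    · exact Finset.prod_ne_zero_iff.mpr fun i _ => X_ne_zero i
    · refine Finset.prod_ne_zero_iff.mpr fun x _ => Finset.prod_ne_zero_iff.mpr fun e he => ?_
      split_ifs with h
      · exact one_ne_zero
      · intro h0
        have h1 := congrArg (eval (fun i : Fin n × Fin 3 =>
          if i = (x.1, 1) then (1 : resRing (PadicComplex p)) else 0)) h0
        have h2 : (x.2, (1 : Fin 3)) ≠ (x.1, 1) := fun h3 => h (congrArg Prod.fst h3).symm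
        have he' : e ≠ 0 := by
          have := (Finset.mem_Ico.mp he).1
          omega
        simp only [map_sub, map_pow, eval_X, if_true, one_pow, if_neg h2, zero_pow he', sub_zero,
          map_zero] at h1
        exact one_ne_zero h1
    · exact Finset.prod_ne_zero_iff.mpr fun J _ => hg0 J
  have hΦD : Φ.totalDegree ≤ D := by
    refine (totalDegree_mul _ _).trans (add_le_add ((totalDegree_mul _ _).trans
      (add_le_add ?_ ?_)) ?_)
    · refine (totalDegree_finsetProd _ _).trans (Finset.sum_le_sum fun i _ => ?_)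
      rw [totalDegree_X]
    · refine (totalDegree_finsetProd _ _).trans (Finset.sum_le_sum fun x _ => ?_)
      refine (totalDegree_finsetProd _ _).trans (Finset.sum_le_sum fun e _ => ?_)
      split_ifs
      · simp
      · refine (totalDegree_sub _ _).trans (max_le ?_ ?_)
        · rw [totalDegree_X_pow]
        · rw [totalDegree_X_pow]
    · exact (totalDegree_finsetProd _ _).trans (Finset.sum_le_sum fun J _ => hgd J)
  -- nonzeros are good
  have hgood : ∀ r : Fin n × Fin 3 → ZMod p, eval (fun i => φ (r i)) Φ ≠ 0 →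
      r ∈ GSet d H v B p := by
    intro r hr z hz
    subst hz
    simp only [hφ] at hr
    simp only [Φ, map_mul, mul_ne_zero_iff] at hr
    obtain ⟨⟨h1, h2⟩, h3⟩ := hr
    simp only [Φ₁, map_prod, eval_X, Finset.prod_ne_zero_iff] at h1
    simp only [Φ₂, map_prod, Finset.prod_ne_zero_iff] at h2
    simp only [Φ₃, map_prod, Finset.prod_ne_zero_iff] at h3
    have hzero : ∀ a : ℤ, (p : ℤ) ∣ a → (a : resRing (PadicComplex p)) = 0 := by
      intro a ha
      rw [← hφ, (ZMod.intCast_zmod_eq_zero_iff_dvd a p).mpr ha, map_zero]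
    refine ⟨fun i hi => h1 i (Finset.mem_univ _) (hzero _ hi), fun i j hij e he heB hdvd => ?_,
      hF, σ, hσ1, hσ3, fun J _ => ?_⟩
    · have h4 := h2 (i, j) (Finset.mem_univ _) e (Finset.mem_Ico.mpr ⟨he, heB⟩)
      rw [if_neg hij] at h4
      apply h4
      have h5 := hzero _ hdvd
      push_cast at h5
      simpa using h5
    · rw [hg J z]
      exact h3 J (Finset.mem_univ _)
  -- counting
  have hsz := card_zeros_le φ hΦ0
  have hcompl : {r : Fin n × Fin 3 → ZMod p | eval (fun i => φ (r i)) Φ = 0}ᶜ ⊆ GSet d H v B p :=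
    fun r hr => hgood r hr
  have hp0 : (0 : ℝ) < p := by exact_mod_cast hp.pos
  have h1 : Set.ncard ({r : Fin n × Fin 3 → ZMod p | eval (fun i => φ (r i)) Φ = 0}) +
      Set.ncard ({r : Fin n × Fin 3 → ZMod p | eval (fun i => φ (r i)) Φ = 0}ᶜ) =
      p ^ Fintype.card (Fin n × Fin 3) := by
    rw [Set.ncard_add_ncard_compl, Nat.card_eq_fintype_card, Fintype.card_fun, ZMod.card]
  have h2 := Set.ncard_le_ncard hcompl (Set.toFinite _)
  have h3 : ((p ^ Fintype.card (Fin n × Fin 3) : ℕ) : ℝ) ≤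
      (Set.ncard ({r : Fin n × Fin 3 → ZMod p | eval (fun i => φ (r i)) Φ = 0}) : ℝ) +
        ((GSet d H v B p).ncard : ℝ) := by
    rw [← h1]
    push_cast
    gcongr
  have h4 : (Set.ncard ({r : Fin n × Fin 3 → ZMod p | eval (fun i => φ (r i)) Φ = 0}) : ℝ) * 2 ≤
      (p : ℝ) ^ Fintype.card (Fin n × Fin 3) := by
    have h5 : ((2 * D : ℕ) : ℝ) ≤ p := by exact_mod_cast (le_max_right _ _).trans hpP
    have h6 : (Φ.totalDegree : ℝ) ≤ D := by exact_mod_cast hΦD
    have h7 : (Set.ncard ({r : Fin n × Fin 3 → ZMod p | eval (fun i => φ (r i)) Φ = 0}) : ℝ) * p ≤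
        D * (p : ℝ) ^ Fintype.card (Fin n × Fin 3) := hsz.trans (by gcongr)
    push_cast at h5
    have h8 : 0 < (p : ℝ) ^ Fintype.card (Fin n × Fin 3) := by positivity
    rw [← mul_le_mul_iff_left₀ hp0]
    nlinarith
  push_cast at h3
  linarith

end Pool.Agent.Hhelper14.ZP
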