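import Pool.Agent.ZPD.Dens

/-!
# Almost all integral vectors have many good primes

PROOF (from `crt_density`). Let `δ > 0`. Since the sum of `1 / p` over the primes diverges
(`Nat.Primes.not_summable_one_div`), one can choose successively finite sets of primes
`S_0, ..., S_(L-1)` and bounds `B_0 = 0, B_(k+1) = max S_k` such that every `p ∈ S_k` is `> B_k` and
`≥ P₀ (B_k)` (from `hG`) and `∏ p ∈ S_k, (1 - 1 / (2 p)) ≤ exp (- ∑ 1 / (2 p)) ≤ δ`. By
`crt_density` with `R p = G B_k p` at most `2 δ (2 H + 1) ^ |ι| H` of the `ω` in the box satisfy no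
`p ∣ ω.2 ∧ ω.1 mod p ∈ G B_k p`, `p ∈ S_k`. Sum over `k`. For the other `ω` choose `P k ∈ S_k`; for
`l' < l` one has `P l' ≤ B_l`, so `G B_l (P l) ⊆ G (P l') (P l)` by `hanti`.
-/

namespace Pool.Agent.ZPD

open Filter

private theorem box_finite {ι : Type} [Fintype ι] (H : ℕ) : (box ι H).Finite := by
  refine (Set.Finite.prod (Set.Finite.pi' (ι := ι) (t := fun _ => Set.Icc (-(H : ℤ)) H)
    fun _ => Set.finite_Icc _ _) (Set.finite_Icc (1 : ℤ) H)).subset ?_
  rintro ω ⟨h1, h2, h3⟩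
  exact ⟨fun i => abs_le.1 (h1 i), h2, h3⟩

/-- finite sets of large primes with a small product of the `1 - 1 / (2 p)`. -/
private theorem exists_primes (M : ℕ) {δ : ℝ} (hδ : 0 < δ) : ∃ S : Finset ℕ,
    (∀ p ∈ S, p.Prime ∧ M < p) ∧ ∏ p ∈ S, (1 - 1 / (2 * (p : ℝ))) ≤ δ := by
  set f : ℕ → ℝ := Set.indicator {p | Nat.Prime p} (fun n => (1 : ℝ) / n) with hf
  have hf0 : ∀ n, 0 ≤ f n := fun n => Set.indicator_nonneg (fun m _ => by positivity) n
  have h1 : Tendsto (fun n : ℕ => ∑ i ∈ Finset.range n, f i) atTop atTop :=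
    (not_summable_iff_tendsto_nat_atTop_of_nonneg hf0).1 not_summable_one_div_on_primes
  obtain ⟨N, hN⟩ := (h1.eventually_ge_atTop
    (2 * Real.log (1 / δ) + ∑ i ∈ Finset.range (M + 1), f i)).exists
  refine ⟨(Finset.range N).filter (fun p => p.Prime ∧ M < p), fun p hp => (Finset.mem_filter.1 hp).2,
    ?_⟩
  set S := (Finset.range N).filter (fun p => p.Prime ∧ M < p) with hS
  have h2 : ∑ i ∈ Finset.range N, f i ≤ ∑ i ∈ Finset.range (M + 1), f i + ∑ p ∈ S, (1 : ℝ) / p := by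
    have h3 : ∑ p ∈ S, (1 : ℝ) / p = ∑ i ∈ (Finset.range N).filter (fun p => M < p), f i := by
      rw [hS, Finset.sum_filter, Finset.sum_filter]
      refine Finset.sum_congr rfl fun p _ => ?_
      by_cases hp : p.Prime
      · by_cases hM : M < p
        · rw [if_pos ⟨hp, hM⟩, if_pos hM]
          exact (Set.indicator_of_mem (s := {p | Nat.Prime p}) hp (fun n : ℕ => (1 : ℝ) / n)).symm
        · rw [if_neg (fun h => hM h.2), if_neg hM]
      · rw [if_neg (fun h => hp h.1)]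
        have : f p = 0 := Set.indicator_of_notMem (s := {p | Nat.Prime p}) hp
          (fun n : ℕ => (1 : ℝ) / n)
        rw [this, ite_self]
    rw [h3, ← Finset.sum_filter_add_sum_filter_not (Finset.range N) (fun p => M < p) f, add_comm]
    refine add_le_add ?_ le_rfl
    refine Finset.sum_le_sum_of_subset_of_nonneg ?_ fun i _ _ => hf0 i
    intro p hp
    have := (Finset.mem_filter.1 hp).2
    exact Finset.mem_range.2 (by omega)
  have h4 : 2 * Real.log (1 / δ) ≤ ∑ p ∈ S, (1 : ℝ) / p := by linarith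
  calc ∏ p ∈ S, (1 - 1 / (2 * (p : ℝ))) ≤ ∏ p ∈ S, Real.exp (-(1 / (2 * (p : ℝ)))) := by
        refine Finset.prod_le_prod ?_ ?_
        · intro p hp
          have hp2 : (2 : ℝ) ≤ p := by exact_mod_cast (Finset.mem_filter.1 hp).2.1.two_le
          have : 1 / (2 * (p : ℝ)) ≤ 1 := by
            rw [div_le_one (by linarith)]
            linarith
          linarith
        · intro p _
          have := Real.add_one_le_exp (-(1 / (2 * (p : ℝ))))
          linarith
    _ = Real.exp (-((∑ p ∈ S, (1 : ℝ) / p) / 2)) := by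
        rw [← Real.exp_sum, Finset.sum_neg_distrib, Finset.sum_div]
        congr 2
        refine Finset.sum_congr rfl fun p _ => ?_
        rw [div_div, mul_comm]
    _ ≤ Real.exp (-Real.log (1 / δ)) := Real.exp_le_exp.2 (by linarith)
    _ = δ := by
        rw [one_div, Real.log_inv, neg_neg, Real.exp_log hδ]

/-- the inductive form: all primes above a given bound `B`. -/
private theorem selection_aux {ι : Type} [Fintype ι] (G : ℕ → (p : ℕ) → Set (ι → ZMod p))
    (hanti : ∀ B B' p, B ≤ B' → G B' p ⊆ G B p)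
    (hG : ∀ B, ∃ P₀ : ℕ, ∀ p : ℕ, p.Prime → P₀ ≤ p →
      (p : ℝ) ^ Fintype.card ι ≤ 2 * ((G B p).ncard : ℝ)) (L : ℕ) : ∀ (B : ℕ) {ε : ℝ}, 0 < ε →
    ∀ᶠ H : ℕ in atTop,
      (Set.ncard {ω ∈ box ι H | ¬ ∃ P : Fin L → ℕ, StrictMono P ∧ (∀ l, (P l).Prime) ∧
        (∀ l, B < P l) ∧
        (∀ l, (P l : ℤ) ∣ ω.2) ∧ (∀ l, (fun i => (ω.1 i : ZMod (P l))) ∈ G B (P l)) ∧
        ∀ l' l, l' < l → (fun i => (ω.1 i : ZMod (P l))) ∈ G (P l') (P l)} : ℝ) ≤
      ε * ((2 * (H : ℝ) + 1) ^ Fintype.card ι * H) := by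
  induction L with
  | zero =>
    intro B ε hε
    refine Eventually.of_forall fun H => ?_
    have h1 : {ω ∈ box ι H | ¬ ∃ P : Fin 0 → ℕ, StrictMono P ∧ (∀ l, (P l).Prime) ∧
        (∀ l, B < P l) ∧
        (∀ l, (P l : ℤ) ∣ ω.2) ∧ (∀ l, (fun i => (ω.1 i : ZMod (P l))) ∈ G B (P l)) ∧
        ∀ l' l, l' < l → (fun i => (ω.1 i : ZMod (P l))) ∈ G (P l') (P l)} = ∅ := by
      rw [Set.eq_empty_iff_forall_notMem]
      rintro ω ⟨_, h⟩
      exact h ⟨fun l => l.elim0, fun l => l.elim0, fun l => l.elim0, fun l => l.elim0,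
        fun l => l.elim0, fun l => l.elim0, fun l => l.elim0⟩
    rw [h1, Set.ncard_empty, Nat.cast_zero]
    positivity
  | succ L ih =>
    intro B ε hε
    obtain ⟨P₀, hP₀⟩ := hG B
    obtain ⟨S, hS, hprod⟩ := exists_primes (max B P₀) (δ := ε / 4) (by positivity)
    have hSB : ∀ p ∈ S, B < p := fun p hp => lt_of_le_of_lt (le_max_left _ _) (hS p hp).2
    have hdens := crt_density S (fun p hp => (hS p hp).1) (fun p => G B p)
      (fun p hp => hP₀ p (hS p hp).1 ((le_max_right _ _).trans (hS p hp).2.le))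
      (ε := ε / 4) (by positivity)
    have hih := ih (max B (S.sup id)) (ε := ε / 2) (by positivity)
    filter_upwards [hdens, hih] with H h1 h2
    set T : ℝ := (2 * (H : ℝ) + 1) ^ Fintype.card ι * H with hT
    have hT0 : 0 ≤ T := by positivity
    have h3 := (Set.ncard_le_ncard (s := {ω ∈ box ι H | ¬ ∃ P : Fin (L + 1) → ℕ,
        StrictMono P ∧ (∀ l, (P l).Prime) ∧ (∀ l, B < P l) ∧
        (∀ l, (P l : ℤ) ∣ ω.2) ∧ (∀ l, (fun i => (ω.1 i : ZMod (P l))) ∈ G B (P l)) ∧
        ∀ l' l, l' < l → (fun i => (ω.1 i : ZMod (P l))) ∈ G (P l') (P l)})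
      (t := {ω ∈ box ι H | ∀ p ∈ S, ¬ ((p : ℤ) ∣ ω.2 ∧ (fun i => (ω.1 i : ZMod p)) ∈ G B p)} ∪
        {ω ∈ box ι H | ¬ ∃ P : Fin L → ℕ, StrictMono P ∧ (∀ l, (P l).Prime) ∧
        (∀ l, max B (S.sup id) < P l) ∧
        (∀ l, (P l : ℤ) ∣ ω.2) ∧
        (∀ l, (fun i => (ω.1 i : ZMod (P l))) ∈ G (max B (S.sup id)) (P l)) ∧
        ∀ l' l, l' < l → (fun i => (ω.1 i : ZMod (P l))) ∈ G (P l') (P l)}) ?_ ?_).trans
      (Set.ncard_union_le _ _)
    · have h4 : ((Set.ncard {ω ∈ box ι H | ¬ ∃ P : Fin (L + 1) → ℕ,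
          StrictMono P ∧ (∀ l, (P l).Prime) ∧ (∀ l, B < P l) ∧
          (∀ l, (P l : ℤ) ∣ ω.2) ∧ (∀ l, (fun i => (ω.1 i : ZMod (P l))) ∈ G B (P l)) ∧
          ∀ l' l, l' < l → (fun i => (ω.1 i : ZMod (P l))) ∈ G (P l') (P l)} : ℕ) : ℝ) ≤
          (∏ p ∈ S, (1 - 1 / (2 * (p : ℝ))) + ε / 4) * T + ε / 2 * T := by
        refine le_trans ?_ (add_le_add h1 h2)
        exact_mod_cast h3
      refine h4.trans ?_
      nlinarith [mul_le_mul_of_nonneg_right hprod hT0]
    · rintro ω ⟨hω, hnot⟩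
      by_contra hcon
      rw [Set.mem_union, not_or] at hcon
      obtain ⟨hc1, hc2⟩ := hcon
      have h5 : ∃ p ∈ S, (p : ℤ) ∣ ω.2 ∧ (fun i => (ω.1 i : ZMod p)) ∈ G B p := by
        by_contra h6
        apply hc1
        refine ⟨hω, fun p hp h7 => h6 ⟨p, hp, h7⟩⟩
      have h8 : ∃ P : Fin L → ℕ, StrictMono P ∧ (∀ l, (P l).Prime) ∧
          (∀ l, max B (S.sup id) < P l) ∧
          (∀ l, (P l : ℤ) ∣ ω.2) ∧
          (∀ l, (fun i => (ω.1 i : ZMod (P l))) ∈ G (max B (S.sup id)) (P l)) ∧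
          ∀ l' l, l' < l → (fun i => (ω.1 i : ZMod (P l))) ∈ G (P l') (P l) := by
        by_contra h9
        exact hc2 ⟨hω, h9⟩
      obtain ⟨p, hp, hpd, hpG⟩ := h5
      obtain ⟨P, hmono, hprime, hlt, hdvd, hPG, hPP⟩ := h8
      have hpsup : p ≤ max B (S.sup id) := (Finset.le_sup (f := id) hp).trans (le_max_right _ _)
      apply hnot
      refine ⟨Fin.cons p P, ?_, ?_, ?_, ?_, ?_, ?_⟩
      · intro l' l hll
        induction l using Fin.cases with
        | zero => exact absurd hll (Fin.not_lt_zero _)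
        | succ l =>
          induction l' using Fin.cases with
          | zero => exact lt_of_le_of_lt hpsup (hlt l)
          | succ l' => exact hmono (Fin.succ_lt_succ_iff.1 hll)
      · intro l
        induction l using Fin.cases with
        | zero => exact (hS p hp).1
        | succ l => exact hprime l
      · intro l
        induction l using Fin.cases with
        | zero => exact hSB p hp
        | succ l => exact lt_of_le_of_lt (le_max_left _ _) (hlt l)
      · intro l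
        induction l using Fin.cases with
        | zero => exact hpd
        | succ l => exact hdvd l
      · intro l
        induction l using Fin.cases with
        | zero => exact hpG
        | succ l => exact hanti _ _ _ (le_max_left _ _) (hPG l)
      · intro l' l hll
        induction l using Fin.cases with
        | zero => exact absurd hll (Fin.not_lt_zero _)
        | succ l =>
          induction l' using Fin.cases with
          | zero => exact hanti _ _ _ hpsup (hPG l)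
          | succ l' => exact hPP l' l (Fin.succ_lt_succ_iff.1 hll)
    · exact ((box_finite H).subset (Set.sep_subset _ _)).union
        ((box_finite H).subset (Set.sep_subset _ _))

theorem selection {ι : Type} [Fintype ι] (G : ℕ → (p : ℕ) → Set (ι → ZMod p))
    (hanti : ∀ B B' p, B ≤ B' → G B' p ⊆ G B p)
    (hG : ∀ B, ∃ P₀ : ℕ, ∀ p : ℕ, p.Prime → P₀ ≤ p →
      (p : ℝ) ^ Fintype.card ι ≤ 2 * ((G B p).ncard : ℝ)) (L : ℕ) {ε : ℝ} (hε : 0 < ε) :
    ∀ᶠ H : ℕ in atTop,
      (Set.ncard {ω ∈ box ι H | ¬ ∃ P : Fin L → ℕ, StrictMono P ∧ (∀ l, (P l).Prime) ∧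
        (∀ l, (P l : ℤ) ∣ ω.2) ∧ (∀ l, (fun i => (ω.1 i : ZMod (P l))) ∈ G 0 (P l)) ∧
        ∀ l' l, l' < l → (fun i => (ω.1 i : ZMod (P l))) ∈ G (P l') (P l)} : ℝ) ≤
      ε * ((2 * (H : ℝ) + 1) ^ Fintype.card ι * H) := by
  filter_upwards [selection_aux G hanti hG L 0 hε] with H h1
  refine le_trans ?_ h1
  norm_cast
  refine Set.ncard_le_ncard ?_ ((box_finite H).subset (Set.sep_subset _ _))
  rintro ω ⟨hω, hnot⟩
  refine ⟨hω, fun h => hnot ?_⟩
  obtain ⟨P, a1, a2, _, a4, a5, a6⟩ := h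
  exact ⟨P, a1, a2, a4, a5, a6⟩

end Pool.Agent.ZPD
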