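import Pool.Agent.Hhelper14.ZP2.Main
import Pool.Agent.ZPD.Res
import Pool.Agent.ZPD.Crit
import Pool.Agent.ZPD.Sel
import Pool.Agent.ZPD.RatPts

/-!
# Almost all rational translates of a subvariety have no atypical intersections
-/

namespace Pool.Agent.Hhelper14.ZP

open MvPolynomial Pool.Agent.ZPD Filter

variable {n : ℕ}

/-- **The translates with many good primes are good.** -/
theorem good_of_primes {V : Set (Fin n → ℂ)} (hV : IsIrredClosed V) {I : Finset (Fin n)}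
    (hI : IsTranscendenceBasis ℂ (fun i : I => xbar (vanishingIdeal ℂ V) i))
    {H : (J : Finset (Fin n)) → MvPolynomial J ℂ}
    (hH : ∀ J : Finset (Fin n), J.card = I.card + 1 →
      rename ((↑) : J → Fin n) (H J) ∈ vanishingIdeal ℂ V)
    {v : Fin n → ℂ} (hv : v ∈ V) {z : Fin n × Fin 3 → ℤ} {m : ℤ} (hm0 : m ≠ 0) {L : ℕ}
    (hL : 2 * 2 ^ n < L) {P : Fin L → ℕ} (hP : StrictMono P) (hprime : ∀ l, (P l).Prime)
    (hm : ∀ l, (P l : ℤ) ∣ m) (hz : ∀ l, GoodAt I.card H v 0 (P l) z)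
    (hz' : ∀ l' l, l' < l → GoodAt I.card H v (P l') (P l) z) :
    GoodTranslate V (fun i => (z i : ℚ) / (m : ℚ)) := by
  have hprime' : ∀ l, Fact (P l).Prime := fun l => ⟨hprime l⟩
  have := hV.1
  have hLpos : 0 < L := by omega
  let l₀ : Fin L := ⟨0, hLpos⟩
  have hz0 : ∀ i, z i ≠ 0 := fun i h => (hz l₀).1 i (h ▸ dvd_zero _)
  have hdet : ∀ i, gz z m i 0 0 * gz z m i 1 1 - gz z m i 0 1 * gz z m i 1 0 ≠ 0 := fun i => by
    rw [gz_det]
    exact neg_ne_zero.mpr (mul_ne_zero (pow_ne_zero _ hm0) (hz0 _))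
  have hne : (mobImage (gz z m) V).Nonempty := by
    refine ⟨_, v, hv, fun i => ⟨?_, rfl⟩⟩
    intro h0
    obtain ⟨hu, -, hF, σ, -, hσv, -⟩ := hz l₀
    have h1 := congrArg σ h0
    simp only [gz, Matrix.of_apply, Matrix.cons_val', Matrix.cons_val_zero, Matrix.cons_val_one,
      Matrix.cons_val_fin_one] at h1
    push_cast at h1
    simp only [map_add, map_mul, map_neg, map_pow, map_intCast, map_zero] at h1
    have hmK : (m : PadicComplex (P l₀)) ≠ 0 := by exact_mod_cast hm0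
    have h2 : (m : PadicComplex (P l₀)) * (m * σ (v i) - z (i, 2)) = 0 := by
      linear_combination h1
    have h3 := (mul_eq_zero.mp h2).resolve_left hmK
    have h4 : ‖((z (i, 2) : ℤ) : PadicComplex (P l₀))‖ = 1 := norm_intCast_eq_one (hu _)
    have h5 : ‖(m : PadicComplex (P l₀))‖ < 1 := (norm_intCast_lt_one_iff m).mpr (hm l₀)
    rw [← sub_eq_zero.mp h3, norm_mul] at h4
    have h6 : ‖(m : PadicComplex (P l₀))‖ * ‖σ (v i)‖ ≤ ‖(m : PadicComplex (P l₀))‖ * 1 := by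
      gcongr
      exact hσv i
    linarith
  obtain ⟨hirr, hdimeq⟩ := translate_irred hdet hV hne
  have hdimV : dim V = I.card := by
    rw [dim, krull_eq_card hI]
    simp
  have hIn : I.card ≤ n := by simpa using Finset.card_le_univ I
  rw [GoodTranslate, pglTranslate_eq z hm0]
  refine ⟨fun i => div_ne_zero (by exact_mod_cast hz0 _) (by exact_mod_cast hm0), hirr, hdimeq, ?_⟩
  refine noAtypical_of_primes (c := n - I.card) (Nat.sub_le _ _) ?_ (u := fun i => z (i, 1)) hm0 hL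
    hP hm (fun l i => (hz l).1 _) (fun l' l hl i j hij => ?_) (fun l => ?_)
  · rw [hdimeq, hdimV, Nat.sub_sub_self hIn]
  · -- orders
    by_contra hcon
    rw [not_le] at hcon
    have hu := (hz l).1
    have hi0 : ((z (i, 1) : ℤ) : ZMod (P l)) ≠ 0 := by
      rw [Ne, ZMod.intCast_zmod_eq_zero_iff_dvd]; exact hu _
    have hj0 : ((z (j, 1) : ℤ) : ZMod (P l)) ≠ 0 := by
      rw [Ne, ZMod.intCast_zmod_eq_zero_iff_dvd]; exact hu _
    have h1 := pow_orderOf_eq_one (((z (i, 1) : ℤ) : ZMod (P l)) / ((z (j, 1) : ℤ) : ZMod (P l)))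
    rw [div_pow, div_eq_one_iff_eq (pow_ne_zero _ hj0)] at h1
    refine (hz' l' l hl).2.1 i j hij _ (orderOf_ratio (hu (i, 1)) (hu (j, 1))).1 hcon ?_
    rw [← ZMod.intCast_zmod_eq_zero_iff_dvd]
    push_cast
    rw [h1, sub_self]
  · obtain ⟨hu, -, hF, σ, hσ1, -, hσ2⟩ := hz l
    exact ⟨σ, fun x hx => exists_near hH hσ1 hm0 (hm l) (fun i => hz0 _) hσ2 hx⟩

/-- **Main theorem.** -/
theorem tendsto_good (hn : 0 < n) {V : Set (Fin n → ℂ)} (hV : IsIrredClosed V) :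
    Tendsto (fun H : ℕ =>
      (Set.ncard {q ∈ ratPoints (Fin n × Fin 3) H | GoodTranslate V q} : ℝ) /
        (Set.ncard (ratPoints (Fin n × Fin 3) H) : ℝ)) atTop (nhds 1) := by
  classical
  have hne : Nonempty (Fin n × Fin 3) := ⟨(⟨0, hn⟩, 0)⟩
  obtain ⟨hP, hPV⟩ := id hV
  obtain ⟨I, hI⟩ := exists_basis (vanishingIdeal ℂ V)
  obtain ⟨v, hv⟩ : V.Nonempty := by
    by_contra hcon
    rw [Set.not_nonempty_iff_eq_empty] at hcon
    apply hP.ne_top
    rw [hcon, vanishingIdeal_empty]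
  choose H hH0 hH using exists_relation hI
  refine tendsto_of_density (GoodTranslate V) fun ε hε => ?_
  filter_upwards [selection (GSet I.card H v) (fun B B' p h => gSet_anti _ _ _ B B' p h)
    (exists_bound I.card H hH0 v) (2 * 2 ^ n + 1) hε] with N hN
  refine le_trans ?_ hN
  have hsub : {ω ∈ box (Fin n × Fin 3) N | ¬ GoodTranslate V
      (fun i => (ω.1 i : ℚ) / (ω.2 : ℚ))} ⊆
      {ω ∈ box (Fin n × Fin 3) N | ¬ ∃ P : Fin (2 * 2 ^ n + 1) → ℕ, StrictMono P ∧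
        (∀ l, (P l).Prime) ∧ (∀ l, (P l : ℤ) ∣ ω.2) ∧
        (∀ l, (fun i => (ω.1 i : ZMod (P l))) ∈ GSet I.card H v 0 (P l)) ∧
        ∀ l' l, l' < l → (fun i => (ω.1 i : ZMod (P l))) ∈ GSet I.card H v (P l') (P l)} := by
    rintro ω ⟨hω, hbad⟩
    refine ⟨hω, fun ⟨P, hPm, hPp, hPd, hP0, hPl⟩ => hbad ?_⟩
    have hm0 : ω.2 ≠ 0 := by
      have := hω.2.1
      omega
    exact good_of_primes hV hI hH hv hm0 (Nat.lt_succ_self _) hPm hPp hPd
      (fun l => hP0 l ω.1 rfl) (fun l' l hl => hPl l' l hl ω.1 rfl)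
  exact_mod_cast Set.ncard_le_ncard hsub ((finite_box _ N).subset fun ω hω => hω.1)

end Pool.Agent.Hhelper14.ZP
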