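import Pool.Agent.ZPD.Ord
import Pool.Agent.Hhelper14.ZP2.Lip

/-!
# Reduction of integral polynomials modulo the maximal ideal of `ℂ_p`
-/

namespace Pool.Agent.Hhelper14.ZP

open MvPolynomial

variable (K : Type*) [NormedField K] [IsUltrametricDist K]

/-- the ring of integers -/
def intRing : Subring K where
  carrier := {x | ‖x‖ ≤ 1}
  mul_mem' := fun {a b} ha hb => by
    simp only [Set.mem_ofPred_eq, norm_mul] at *
    exact mul_le_one₀ ha (norm_nonneg _) hb
  one_mem' := by simp
  add_mem' := fun {a b} ha hb =>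
    (IsUltrametricDist.norm_add_le_max a b).trans (max_le ha hb)
  zero_mem' := by simp
  neg_mem' := fun {a} ha => by simpa using ha

/-- the maximal ideal -/
def maxIdeal : Ideal (intRing K) where
  carrier := {x | ‖(x : K)‖ < 1}
  add_mem' := fun {a b} ha hb =>
    (IsUltrametricDist.norm_add_le_max (a : K) b).trans_lt (max_lt ha hb)
  zero_mem' := by simp
  smul_mem' := fun c x hx => by
    simp only [Set.mem_ofPred_eq, smul_eq_mul, Subring.coe_mul, norm_mul] at *
    exact (mul_le_of_le_one_left (norm_nonneg _) c.2).trans_lt hx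

theorem mem_maxIdeal (x : intRing K) : x ∈ maxIdeal K ↔ ‖(x : K)‖ < 1 := Iff.rfl

instance maxIdeal_isPrime : (maxIdeal K).IsPrime := by
  refine ⟨?_, fun {x y} hxy => ?_⟩
  · intro h
    have : (1 : intRing K) ∈ maxIdeal K := by rw [h]; exact Submodule.mem_top
    rw [mem_maxIdeal] at this
    simp at this
  · rw [mem_maxIdeal, mem_maxIdeal]
    rw [mem_maxIdeal] at hxy
    by_contra hcon
    push Not at hcon
    have h1 : ‖(x : K)‖ = 1 := le_antisymm x.2 hcon.1
    have h2 : ‖(y : K)‖ = 1 := le_antisymm y.2 hcon.2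
    rw [Subring.coe_mul, norm_mul, h1, h2, mul_one] at hxy
    exact lt_irrefl _ hxy

/-- the residue ring -/
abbrev resRing : Type _ := intRing K ⧸ maxIdeal K

instance resRing_isDomain : IsDomain (resRing K) := Ideal.Quotient.isDomain _

variable {K}

/-- **Reduction of an integral polynomial.** -/
theorem exists_red {ι : Type*} [Fintype ι] (G : MvPolynomial ι K) (hG : ∀ μ, ‖G.coeff μ‖ ≤ 1)
    (hne : ∃ μ, ‖G.coeff μ‖ = 1) : ∃ g : MvPolynomial ι (resRing K), g ≠ 0 ∧
      g.totalDegree ≤ G.totalDegree ∧ ∀ z : ι → ℤ,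
        ‖eval (fun i => (z i : K)) G‖ < 1 ↔ eval (fun i => (z i : resRing K)) g = 0 := by
  classical
  let G₀ : MvPolynomial ι (intRing K) := ∑ μ ∈ G.support, monomial μ ⟨G.coeff μ, hG μ⟩
  have hc : ∀ μ, ((G₀.coeff μ : intRing K) : K) = G.coeff μ := by
    intro μ
    simp only [G₀, coeff_sum, coeff_monomial, Finset.sum_ite_eq']
    split_ifs with h
    · rfl
    · rw [notMem_support_iff.mp h]; rfl
  have hmap : MvPolynomial.map (intRing K).subtype G₀ = G := by
    ext μ
    rw [coeff_map]
    exact hc μ
  refine ⟨MvPolynomial.map (Ideal.Quotient.mk (maxIdeal K)) G₀, ?_, ?_, fun z => ?_⟩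
  · obtain ⟨μ, hμ⟩ := hne
    intro h
    have h1 := congrArg (coeff μ) h
    rw [coeff_map, coeff_zero, Ideal.Quotient.eq_zero_iff_mem, mem_maxIdeal, hc, hμ] at h1
    exact lt_irrefl _ h1
  · refine Finset.sup_mono ?_
    intro μ hμ
    rw [mem_support_iff, coeff_map] at hμ
    rw [mem_support_iff, ← hc]
    intro h
    apply hμ
    have : G₀.coeff μ = 0 := Subtype.ext h
    rw [this, map_zero]
  · have h1 : eval (fun i => (z i : K)) G =
        ((eval (fun i => (z i : intRing K)) G₀ : intRing K) : K) := by
      conv_lhs => rw [← hmap]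
      rw [eval_map]
      have := MvPolynomial.eval₂_comp_left (intRing K).subtype (RingHom.id _)
        (fun i => (z i : intRing K)) G₀
      rw [RingHom.comp_id, eval₂_id] at this
      rw [show ((eval (fun i => (z i : intRing K)) G₀ : intRing K) : K) =
        (intRing K).subtype (eval (fun i => (z i : intRing K)) G₀) from rfl, this]
      congr 1
    have h2 : eval (fun i => (z i : resRing K)) (MvPolynomial.map (Ideal.Quotient.mk (maxIdeal K)) G₀) =
        Ideal.Quotient.mk (maxIdeal K) (eval (fun i => (z i : intRing K)) G₀) := by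
      rw [eval_map]
      have := MvPolynomial.eval₂_comp_left (Ideal.Quotient.mk (maxIdeal K)) (RingHom.id _)
        (fun i => (z i : intRing K)) G₀
      rw [RingHom.comp_id, eval₂_id] at this
      rw [this]
      congr 1
    rw [h1, h2, Ideal.Quotient.eq_zero_iff_mem, mem_maxIdeal]

/-- **Schwartz-Zippel** for the points with coordinates in the prime field. -/
theorem card_zeros_le {k : Type*} [CommRing k] [IsDomain k] {p : ℕ} [hp : Fact p.Prime]
    (φ : ZMod p →+* k) {ι : Type*} [Fintype ι] {Φ : MvPolynomial ι k} (hΦ : Φ ≠ 0) :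
    ({r : ι → ZMod p | eval (fun i => φ (r i)) Φ = 0}.ncard : ℝ) * p ≤
      Φ.totalDegree * (p : ℝ) ^ Fintype.card ι := by
  classical
  let e := Fintype.equivFin ι
  have hφ : Function.Injective φ := φ.injective
  let S : Finset k := Finset.univ.image φ
  have hS : S.card = p := by
    rw [Finset.card_image_of_injective _ hφ, Finset.card_univ, ZMod.card]
  have hΨ : rename e Φ ≠ 0 := fun h => hΦ (rename_injective e e.injective (by rw [h, map_zero]))
  have h1 := schwartz_zippel_totalDegree hΨ S
  rw [hS] at h1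
  have hdeg : (rename e Φ).totalDegree ≤ Φ.totalDegree := totalDegree_rename_le _ _
  have hcard : {r : ι → ZMod p | eval (fun i => φ (r i)) Φ = 0}.ncard ≤
      (Finset.filter (fun f => eval f (rename e Φ) = 0) (Fintype.piFinset fun _ => S)).card := by
    rw [← Set.ncard_coe_finset]
    refine Set.ncard_le_ncard_of_injOn (fun r => fun j => φ (r (e.symm j))) ?_ ?_
      (Finset.finite_toSet _)
    · intro r hr
      simp only [Finset.coe_filter, Fintype.mem_piFinset, Set.mem_ofPred_eq]
      refine ⟨fun j => Finset.mem_image_of_mem _ (Finset.mem_univ _), ?_⟩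
      rw [eval_rename]
      have : (fun j => φ (r (e.symm j))) ∘ e = fun i => φ (r i) := by
        funext i
        simp
      rw [this]
      exact hr
    · intro r _ r' _ h
      funext i
      have := congrFun h (e i)
      simp only [Equiv.symm_apply_apply] at this
      exact hφ this
  have hp0 : (0 : ℝ) < p := by exact_mod_cast hp.out.pos
  have h2 := (NNRat.cast_le (K := ℝ)).mpr h1
  push_cast at h2
  rw [div_le_div_iff₀ (by positivity) hp0] at h2
  calc ({r : ι → ZMod p | eval (fun i => φ (r i)) Φ = 0}.ncard : ℝ) * p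
      ≤ ((Finset.filter (fun f => eval f (rename e Φ) = 0)
          (Fintype.piFinset fun _ => S)).card : ℝ) * p := by
        gcongr
    _ ≤ ((rename e Φ).totalDegree : ℝ) * (p : ℝ) ^ Fintype.card ι := h2
    _ ≤ _ := by gcongr

end Pool.Agent.Hhelper14.ZP
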