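import Pool.Agent.Hhelper14.ZP2.Hecke

/-!
# Hecke related `j`-invariants: an exact description by Tate parameters
-/

namespace Pool.Agent.Hhelper14.ZP

open UpperHalfPlane ModularForm MatrixGroups Function PowerSeries

variable {K : Type*} [NormedField K] [IsUltrametricDist K] [CompleteSpace K]

theorem isTate_ne_zero {f : PowerSeries K} (hfn : ∀ n, ‖coeff n f‖ ≤ 1) (hf0 : coeff 0 f = 1)
    {x q : K} (h : IsTate f x q) : q ≠ 0 := by
  rintro rfl
  have h2 := h.2
  rw [zero_mul, val_zero hfn, hf0] at h2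
  exact zero_ne_one h2

/-- **The roots of the modular equation in terms of Tate parameters.** -/
theorem tate_iff {fC : PowerSeries ℂ} (hfO : ∀ n, coeff n fC ∈ OO) (hf0 : coeff 0 fC = 1)
    (hf : ∀ τ : ℍ, Ev (Function.Periodic.qParam 1 (τ : ℂ)) fC
      (Function.Periodic.qParam 1 (τ : ℂ) * jInv τ))
    (hZ : ∀ m : ℤ, ‖(m : K)‖ ≤ 1) (σ : ℂ →+* K) {N : ℕ} (hN : 0 < N)
    {a d : QQ N → ℕ} {c : QQ N → ℂ} (ha : ∀ r, 0 < a r) (hd : ∀ r, 0 < d r)
    (hc : ∀ r, c r ^ d r = 1)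
    (hac : ∀ r, ∀ τ : ℍ, Ev (qN N τ) (powComp (c r) (a r ^ 2) fC)
      (c r * qN N τ ^ (a r ^ 2) * jQ hN r τ))
    (τ₀ : ℍ) {q s : K} (hq : IsTate (PowerSeries.map σ fC) (σ (jInv τ₀)) q) (hs : s ^ N = q)
    (y : ℂ) :
    (∃ r, y = jQ hN r τ₀) ↔
      ∃ r, IsTate (PowerSeries.map σ fC) (σ y) (σ (c r) * s ^ (a r ^ 2)) := by
  classical
  have := finite_QQ hN
  have : Fintype (QQ N) := Fintype.ofFinite _
  set f := PowerSeries.map σ fC with hfdef
  have hfn : ∀ n, ‖coeff n f‖ ≤ 1 := fun n => by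
    rw [hfdef, PowerSeries.coeff_map]
    exact norm_OO_le hZ σ (hfO n)
  have hf0' : coeff 0 f = 1 := by
    rw [hfdef, PowerSeries.coeff_map, hf0, map_one]
  have hq0 : q ≠ 0 := isTate_ne_zero hfn hf0' hq
  obtain ⟨hq1, hqx⟩ := hq
  have hs0 : s ≠ 0 := by
    rintro rfl
    rw [zero_pow hN.ne'] at hs
    exact hq0 hs.symm
  have hs1 : ‖s‖ < 1 := by
    by_contra hcon
    rw [not_lt] at hcon
    have h1 : 1 ≤ ‖s‖ ^ N := one_le_pow₀ hcon
    rw [← norm_pow, hs] at h1
    linarith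
  -- the polynomial
  choose Pk hPk using charP_coeff hN
  let P : Polynomial ℂ := ∑ k ∈ Finset.range ((charP hN).natDegree + 1),
    Polynomial.C (y ^ k) * (Pk k).map OO.subtype
  have hP : ∀ τ, P.eval (jInv τ) = ∏ q : QQ N, (y - jQ hN q τ) := by
    intro τ
    have h1 : ((charP hN).map (evalAt N τ)).eval y = ∏ q : QQ N, (y - jQ hN q τ) := by
      rw [charP_map, Polynomial.eval_prod]
      refine Finset.prod_congr rfl fun q _ => ?_
      rw [Polynomial.eval_sub, Polynomial.eval_X, Polynomial.eval_C]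
    rw [← h1, Polynomial.eval_map, Polynomial.eval₂_eq_sum_range, Polynomial.eval_finsetSum]
    refine Finset.sum_congr rfl fun k _ => ?_
    rw [Polynomial.eval_mul, Polynomial.eval_C, Polynomial.eval_map, ← hPk k τ, mul_comm]
  have hid := congrArg (PowerSeries.map σ) (formal_identity hN hf hac y P hP)
  simp only [map_mul, map_sum, map_prod, map_pow, map_sub, PowerSeries.map_C, PowerSeries.map_X,
    map_powComp, map_one, ← hfdef] at hid
  -- evaluate at `s`
  have h1 : Ev s (powComp 1 N f) (q * σ (jInv τ₀)) := by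
    rw [hqx]
    have h3 : Ev (1 * s ^ N) f (val f q) := by
      rw [one_mul, hs]
      exact ev_val hfn hq1
    exact h3.powComp hN
  have hcn : ∀ r : QQ N, ‖σ (c r)‖ = 1 := by
    intro r
    have h2 := congrArg (fun z => ‖σ z‖) (hc r)
    simp only [map_pow, norm_pow, map_one, norm_one] at h2
    exact (pow_eq_one_iff_of_nonneg (norm_nonneg _) (hd r).ne').mp h2
  have hun : ∀ r : QQ N, ‖σ (c r) * s ^ (a r ^ 2)‖ < 1 := by
    intro r
    rw [norm_mul, hcn, one_mul, norm_pow]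
    exact pow_lt_one₀ (norm_nonneg _) hs1 (pow_pos (ha r) 2).ne'
  have h2 : ∀ r : QQ N, Ev s (powComp (σ (c r)) (a r ^ 2) f) (val f (σ (c r) * s ^ (a r ^ 2))) :=
    fun r => (ev_val hfn (hun r)).powComp (pow_pos (ha r) 2)
  have hL := (Ev.sum (s := s) (Finset.range (P.natDegree + 1)) _ _ fun k _ =>
    ((Ev.C s (σ (P.coeff k))).mul (h1.pow k)).mul ((Ev.X s).pow (N * (P.natDegree - k)))).mul
    (Ev.prod (s := s) Finset.univ _ _ fun (r : QQ N) _ =>
      (Ev.C s (σ (c r))).mul ((Ev.X s).pow (a r ^ 2)))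
  have hR := ((Ev.X s).pow (N * P.natDegree)).mul
    (Ev.prod (s := s) Finset.univ _ _ fun (r : QQ N) _ =>
      (((Ev.C s (σ y)).mul (Ev.C s (σ (c r)))).mul ((Ev.X s).pow (a r ^ 2))).sub (h2 r))
  rw [hid] at hL
  have hval := hR.unique hL
  have e1 : ∑ k ∈ Finset.range (P.natDegree + 1), σ (P.coeff k) * (q * σ (jInv τ₀)) ^ k *
      s ^ (N * (P.natDegree - k)) = q ^ P.natDegree * σ (P.eval (jInv τ₀)) := by
    rw [Polynomial.eval_eq_sum_range, map_sum, Finset.mul_sum]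
    refine Finset.sum_congr rfl fun k hk => ?_
    have hk' : k ≤ P.natDegree := by
      have := Finset.mem_range.mp hk
      omega
    rw [pow_mul, hs, map_mul, map_pow]
    have e3 : q ^ P.natDegree = q ^ k * q ^ (P.natDegree - k) := by
      rw [← pow_add, Nat.add_sub_cancel' hk']
    rw [e3, mul_pow]
    ring
  rw [e1] at hval
  have hcs : (∏ r : QQ N, σ (c r) * s ^ (a r ^ 2)) ≠ 0 := by
    refine Finset.prod_ne_zero_iff.mpr fun r _ => mul_ne_zero ?_ (pow_ne_zero _ hs0)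
    intro h
    have := hcn r
    rw [h, norm_zero] at this
    exact zero_ne_one this
  have hiff : P.eval (jInv τ₀) = 0 ↔
      (∏ r : QQ N, (σ y * σ (c r) * s ^ (a r ^ 2) - val f (σ (c r) * s ^ (a r ^ 2)))) = 0 := by
    constructor
    · intro h
      rw [h, map_zero, mul_zero, zero_mul] at hval
      exact (mul_eq_zero.mp hval).resolve_left (pow_ne_zero _ hs0)
    · intro h
      rw [h, mul_zero] at hval
      have h4 := (mul_eq_zero.mp hval.symm).resolve_right hcs
      have h5 := (mul_eq_zero.mp h4).resolve_left (pow_ne_zero _ hq0)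
      exact (map_eq_zero σ).mp h5
  rw [hP τ₀] at hiff
  constructor
  · rintro ⟨r, hr⟩
    obtain ⟨r', -, hr'⟩ := Finset.prod_eq_zero_iff.mp (hiff.mp
      (Finset.prod_eq_zero (Finset.mem_univ r) (by rw [hr, sub_self])))
    refine ⟨r', hun r', ?_⟩
    rw [← sub_eq_zero, ← hr']
    ring
  · rintro ⟨r, -, hr⟩
    obtain ⟨r', -, hr'⟩ := Finset.prod_eq_zero_iff.mp (hiff.mpr
      (Finset.prod_eq_zero (Finset.mem_univ r) (by rw [← hr]; ring)))
    exact ⟨r', sub_eq_zero.mp hr'⟩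

end Pool.Agent.Hhelper14.ZP
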